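import Mathlib
import Pool.Agent.BD48.MainL

/-!
Undirected node-connectivity augmentation of graphs of small maximum degree, `k` arbitrary.
-/

namespace Pool.Agent.Results.MP_cccaab_lc.BoundedDegree

open Finset

variable {V : Type*} [Fintype V]

/-- `G` is `k`-node-connected: it has at least `k + 1` vertices and `G - X` is connected for every
set `X` of at most `k - 1` vertices. -/
def NodeConnected (G : SimpleGraph V) (k : ℕ) : Prop :=
  k + 1 ≤ Fintype.card V ∧
    ∀ X : Finset V, X.card + 1 ≤ k → (G.induce {v | v ∉ X}).Connected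

/-- The numbers of edges of the augmenting sets: `F` is a set of edges of the complement of `G` and
`G + F` is `k`-node-connected. -/
def AugmentingSizes (G : SimpleGraph V) (k : ℕ) : Set ℕ :=
  {t | ∃ F : SimpleGraph V, F ≤ Gᶜ ∧ NodeConnected (G ⊔ F) k ∧ F.edgeSet.ncard = t}

section proofs

open Pool.Agent.BD48

attribute [local instance] Classical.propDecidable

lemma nodeConnected_of_sepFree (H : SimpleGraph V) (k : ℕ) (hk : k + 1 ≤ Fintype.card V)
    (h : SepFree H k) : NodeConnected H k := by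
  refine ⟨hk, ?_⟩
  intro X hX
  have hne : ∃ x, x ∉ X := by
    by_contra hcon
    push Not at hcon
    have : X = univ := Finset.eq_univ_iff_forall.mpr hcon
    rw [this, Finset.card_univ] at hX
    omega
  obtain ⟨x0, hx0⟩ := hne
  rw [SimpleGraph.connected_iff]
  refine ⟨?_, ⟨⟨x0, hx0⟩⟩⟩
  rintro ⟨x, hx⟩ ⟨y, hy⟩
  by_contra hxy
  let C : Finset V := univ.filter (fun z => ∃ hz : z ∉ X,
    (H.induce {v | v ∉ X}).Reachable ⟨x, hx⟩ ⟨z, hz⟩)
  let D : Finset V := univ.filter (fun z => z ∉ X ∧ z ∉ C)
  have hxC : x ∈ C := by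
    simp only [C, Finset.mem_filter, Finset.mem_univ, true_and]
    exact ⟨hx, SimpleGraph.Reachable.refl _⟩
  have hyD : y ∈ D := by
    simp only [D, C, Finset.mem_filter, Finset.mem_univ, true_and]
    refine ⟨hy, ?_⟩
    rintro ⟨_, h1⟩
    exact hxy h1
  refine h C D X ?_ ?_ ?_ ?_ ⟨x, hxC⟩ ⟨y, hyD⟩ hX ?_
  · intro z
    by_cases h1 : z ∈ X
    · exact Or.inr (Or.inr h1)
    · by_cases h2 : z ∈ C
      · exact Or.inl h2
      · right
        left
        simp only [D, Finset.mem_filter, Finset.mem_univ, true_and]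
        exact ⟨h1, h2⟩
  · intro z hz hz'
    simp only [D, Finset.mem_filter, Finset.mem_univ, true_and] at hz'
    exact hz'.2 hz
  · intro z hz
    simp only [C, Finset.mem_filter, Finset.mem_univ, true_and] at hz
    exact hz.1
  · intro z hz
    simp only [D, Finset.mem_filter, Finset.mem_univ, true_and] at hz
    exact hz.1
  · intro a ha b hb hab
    have hbX : b ∉ X := by
      simp only [D, Finset.mem_filter, Finset.mem_univ, true_and] at hb
      exact hb.1
    have hbC : b ∉ C := by
      simp only [D, Finset.mem_filter, Finset.mem_univ, true_and] at hb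
      exact hb.2
    apply hbC
    simp only [C, Finset.mem_filter, Finset.mem_univ, true_and] at ha ⊢
    obtain ⟨haX, hreach⟩ := ha
    refine ⟨hbX, hreach.trans ?_⟩
    have hadj : (H.induce {v | v ∉ X}).Adj ⟨a, haX⟩ ⟨b, hbX⟩ := hab
    exact hadj.reachable

/-- all degrees of a `k`-node-connected graph are at least `k` -/
lemma le_dg_of_nodeConnected (H : SimpleGraph V) (k : ℕ) (h : NodeConnected H k) (v : V) :
    k ≤ dg H v := by
  by_contra hcon
  push Not at hcon
  have hX : (nb H v).card + 1 ≤ k := hcon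
  have hv : v ∉ nb H v := by
    rw [mem_nb]
    exact fun h' => h'.ne rfl
  obtain ⟨w, hw⟩ : ∃ w, w ∉ insert v (nb H v) := by
    by_contra hcon'
    push Not at hcon'
    have h1 : insert v (nb H v) = univ := Finset.eq_univ_iff_forall.mpr hcon'
    have h2 := Finset.card_insert_le v (nb H v)
    rw [h1, Finset.card_univ] at h2
    have h3 := h.1
    omega
  rw [Finset.mem_insert, not_or] at hw
  have hconn := h.2 (nb H v) hX
  obtain ⟨p⟩ := hconn.preconnected ⟨v, hv⟩ ⟨w, hw.2⟩
  cases p with
  | nil => exact hw.1 rfl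
  | @cons _ z _ hadj _ =>
    have h1 : H.Adj v z.1 := hadj
    exact z.2 (mem_nb.mpr h1)

lemma sum_dg_eq (H : SimpleGraph V) : ∑ v, dg H v = 2 * H.edgeSet.ncard := by
  have h : ∀ v, dg H v = H.degree v := by
    intro v
    rw [← SimpleGraph.card_neighborFinset_eq_degree]
    refine dg_eq_card _ _ _ ?_
    intro y
    simp
  rw [Finset.sum_congr rfl (fun v _ => h v), SimpleGraph.sum_degrees_eq_twice_card_edges,
    ← SimpleGraph.coe_edgeFinset, Set.ncard_coe_finset]

lemma ncard_edges_sup (G F : SimpleGraph V) (hF : F ≤ Gᶜ) :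
    (G ⊔ F).edgeSet.ncard = G.edgeSet.ncard + F.edgeSet.ncard := by
  rw [SimpleGraph.edgeSet_sup, Set.ncard_union_eq]
  rw [Set.disjoint_left]
  intro e
  induction e using Sym2.ind with
  | _ x y =>
    intro h1 h2
    rw [SimpleGraph.mem_edgeSet] at h1 h2
    exact (hF h2).2 h1

end proofs

/-- **Augmentation of graphs of small maximum degree.** If all degrees of `G` are at most `d` and
`300000 (d + 1) ≤ k ≤ n - 1`, then the least number of edges of an augmenting set is
`⌈k n / 2⌉ - |E(G)|`. -/
theorem result (G : SimpleGraph V) (d k : ℕ) (hd : ∀ v, (G.neighborSet v).ncard ≤ d)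
    (hk : 300000 * (d + 1) ≤ k) (hn : k + 1 ≤ Fintype.card V) :
    ∃ T : ℕ, T + G.edgeSet.ncard = (k * Fintype.card V + 1) / 2 ∧
      IsLeast (AugmentingSizes G k) T := by
  classical
  have hd' : ∀ v, Pool.Agent.BD48.dg G v ≤ d := by
    intro v
    refine le_trans (le_of_eq ?_) (hd v)
    unfold Pool.Agent.BD48.dg
    rw [← Set.ncard_coe_finset]
    congr 1
    ext w
    rw [Finset.mem_coe, Pool.Agent.BD48.mem_nb, SimpleGraph.mem_neighborSet]
  obtain ⟨H, hGH, hsep, hsum⟩ := Pool.Agent.BD48.exists_superL G d k hd' hk hn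
  have hHconn := nodeConnected_of_sepFree H k hn hsep
  -- lower bound for every `k`-node-connected graph
  have hlow : ∀ H' : SimpleGraph V, NodeConnected H' k →
      (k * Fintype.card V + 1) / 2 ≤ H'.edgeSet.ncard := by
    intro H' hH'
    have h1 := sum_dg_eq H'
    have h2 : ∑ _v : V, k ≤ ∑ v, Pool.Agent.BD48.dg H' v :=
      Finset.sum_le_sum (fun v _ => le_dg_of_nodeConnected H' k hH' v)
    rw [Finset.sum_const, Finset.card_univ, smul_eq_mul, Nat.mul_comm] at h2
    omega
  have hHedges : H.edgeSet.ncard = (k * Fintype.card V + 1) / 2 := by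
    have h1 := hlow H hHconn
    have h2 := sum_dg_eq H
    omega
  -- the augmenting set
  have hF : H \ G ≤ Gᶜ := by
    intro x y hxy
    rw [SimpleGraph.sdiff_adj] at hxy
    rw [SimpleGraph.compl_adj]
    exact ⟨hxy.1.ne, hxy.2⟩
  have hsup : G ⊔ (H \ G) = H := sup_sdiff_cancel_right hGH
  have hcount := ncard_edges_sup G (H \ G) hF
  rw [hsup, hHedges] at hcount
  refine ⟨(H \ G).edgeSet.ncard, by omega, ?_, ?_⟩
  · exact ⟨H \ G, hF, by rw [hsup]; exact hHconn, rfl⟩
  · rintro t ⟨F, hF1, hF2, rfl⟩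
    have h1 := hlow _ hF2
    have h2 := ncard_edges_sup G F hF1
    omega

end Pool.Agent.Results.MP_cccaab_lc.BoundedDegree
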