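import Mathlib
import Pool.Agent.BD48.HT
import Pool.Agent.BD48.Num2
import Pool.Agent.BD48.RedStmt

/-!
Undirected node-connectivity augmentation: one half of the number of vertices is the threshold for the
maximum degree.
-/

namespace Pool.Agent.Results.MP_cccaab_lc.HalfThreshold

open Finset

variable {V : Type*} [Fintype V]

/-- `G` is `k`-node-connected: it has at least `k + 1` vertices and `G - X` is connected for every
set `X` of at most `k - 1` vertices. -/
def NodeConnected (G : SimpleGraph V) (k : ℕ) : Prop :=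
  k + 1 ≤ Fintype.card V ∧
    ∀ X : Finset V, X.card + 1 ≤ k → (G.induce {v | v ∉ X}).Connected

/-- The numbers of edges of the augmenting sets: `F` is a set of edges of the complement of `G` and
`G + F` is `k`-node-connected. -/
def AugmentingSizes (G : SimpleGraph V) (k : ℕ) : Set ℕ :=
  {t | ∃ F : SimpleGraph V, F ≤ Gᶜ ∧ NodeConnected (G ⊔ F) k ∧ F.edgeSet.ncard = t}

/-- The graph `G₀` together with two cliques `A` and `D` on `a` vertices each, all edges between
`V(G₀)` and `D`, no edges between `V(G₀)` and `A`, no edges between `A` and `D`. -/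
def Blown (G₀ : SimpleGraph V) (a : ℕ) : SimpleGraph (V ⊕ (Fin a ⊕ Fin a)) :=
  Pool.Agent.BD48.big G₀ a

section proofs

open Pool.Agent.BD48

attribute [local instance] Classical.propDecidable

lemma nodeConnected_of_sepFree (H : SimpleGraph V) (k : ℕ) (hk : k + 1 ≤ Fintype.card V)
    (h : SepFree H k) : NodeConnected H k := by
  refine ⟨hk, ?_⟩
  intro X hX
  have hne : ∃ x, x ∉ X := by
    by_contra hcon
    push Not at hcon
    have : X = univ := Finset.eq_univ_iff_forall.mpr hcon
    rw [this, Finset.card_univ] at hX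
    omega
  obtain ⟨x0, hx0⟩ := hne
  rw [SimpleGraph.connected_iff]
  refine ⟨?_, ⟨⟨x0, hx0⟩⟩⟩
  rintro ⟨x, hx⟩ ⟨y, hy⟩
  by_contra hxy
  let C : Finset V := univ.filter (fun z => ∃ hz : z ∉ X,
    (H.induce {v | v ∉ X}).Reachable ⟨x, hx⟩ ⟨z, hz⟩)
  let D : Finset V := univ.filter (fun z => z ∉ X ∧ z ∉ C)
  have hxC : x ∈ C := by
    simp only [C, Finset.mem_filter, Finset.mem_univ, true_and]
    exact ⟨hx, SimpleGraph.Reachable.refl _⟩
  have hyD : y ∈ D := by
    simp only [D, C, Finset.mem_filter, Finset.mem_univ, true_and]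
    refine ⟨hy, ?_⟩
    rintro ⟨_, h1⟩
    exact hxy h1
  refine h C D X ?_ ?_ ?_ ?_ ⟨x, hxC⟩ ⟨y, hyD⟩ hX ?_
  · intro z
    by_cases h1 : z ∈ X
    · exact Or.inr (Or.inr h1)
    · by_cases h2 : z ∈ C
      · exact Or.inl h2
      · right
        left
        simp only [D, Finset.mem_filter, Finset.mem_univ, true_and]
        exact ⟨h1, h2⟩
  · intro z hz hz'
    simp only [D, Finset.mem_filter, Finset.mem_univ, true_and] at hz'
    exact hz'.2 hz
  · intro z hz
    simp only [C, Finset.mem_filter, Finset.mem_univ, true_and] at hz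
    exact hz.1
  · intro z hz
    simp only [D, Finset.mem_filter, Finset.mem_univ, true_and] at hz
    exact hz.1
  · intro a ha b hb hab
    have hbX : b ∉ X := by
      simp only [D, Finset.mem_filter, Finset.mem_univ, true_and] at hb
      exact hb.1
    have hbC : b ∉ C := by
      simp only [D, Finset.mem_filter, Finset.mem_univ, true_and] at hb
      exact hb.2
    apply hbC
    simp only [C, Finset.mem_filter, Finset.mem_univ, true_and] at ha ⊢
    obtain ⟨haX, hreach⟩ := ha
    refine ⟨hbX, hreach.trans ?_⟩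
    have hadj : (H.induce {v | v ∉ X}).Adj ⟨a, haX⟩ ⟨b, hbX⟩ := hab
    exact hadj.reachable

/-- all degrees of a `k`-node-connected graph are at least `k` -/
lemma le_dg_of_nodeConnected (H : SimpleGraph V) (k : ℕ) (h : NodeConnected H k) (v : V) :
    k ≤ dg H v := by
  by_contra hcon
  push Not at hcon
  have hX : (nb H v).card + 1 ≤ k := hcon
  have hv : v ∉ nb H v := by
    rw [mem_nb]
    exact fun h' => h'.ne rfl
  obtain ⟨w, hw⟩ : ∃ w, w ∉ insert v (nb H v) := by
    by_contra hcon'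
    push Not at hcon'
    have h1 : insert v (nb H v) = univ := Finset.eq_univ_iff_forall.mpr hcon'
    have h2 := Finset.card_insert_le v (nb H v)
    rw [h1, Finset.card_univ] at h2
    have h3 := h.1
    omega
  rw [Finset.mem_insert, not_or] at hw
  have hconn := h.2 (nb H v) hX
  obtain ⟨p⟩ := hconn.preconnected ⟨v, hv⟩ ⟨w, hw.2⟩
  cases p with
  | nil => exact hw.1 rfl
  | @cons _ z _ hadj _ =>
    have h1 : H.Adj v z.1 := hadj
    exact z.2 (mem_nb.mpr h1)

lemma sum_dg_eq (H : SimpleGraph V) : ∑ v, dg H v = 2 * H.edgeSet.ncard := by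
  have h : ∀ v, dg H v = H.degree v := by
    intro v
    rw [← SimpleGraph.card_neighborFinset_eq_degree]
    refine dg_eq_card _ _ _ ?_
    intro y
    simp
  rw [Finset.sum_congr rfl (fun v _ => h v), SimpleGraph.sum_degrees_eq_twice_card_edges,
    ← SimpleGraph.coe_edgeFinset, Set.ncard_coe_finset]

lemma ncard_edges_sup (G F : SimpleGraph V) (hF : F ≤ Gᶜ) :
    (G ⊔ F).edgeSet.ncard = G.edgeSet.ncard + F.edgeSet.ncard := by
  rw [SimpleGraph.edgeSet_sup, Set.ncard_union_eq]
  rw [Set.disjoint_left]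
  intro e
  induction e using Sym2.ind with
  | _ x y =>
    intro h1 h2
    rw [SimpleGraph.mem_edgeSet] at h1 h2
    exact (hF h2).2 h1

lemma sepFree_of_nodeConnected (H : SimpleGraph V) (k : ℕ) (h : NodeConnected H k) :
    SepFree H k := by
  intro C D X hcov hCD hCX hDX hC hD hXk hno
  obtain ⟨c, hc⟩ := hC
  obtain ⟨e, he⟩ := hD
  have hconn := h.2 X hXk
  obtain ⟨p⟩ := hconn.preconnected ⟨c, hCX c hc⟩ ⟨e, hDX e he⟩
  have key : ∀ (a b : {v | v ∉ X}) (_ : (H.induce {v | v ∉ X}).Walk a b), a.1 ∈ C → b.1 ∈ C := by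
    intro a b p
    induction p with
    | nil => exact id
    | @cons a z b hadj _ ih =>
      intro ha
      apply ih
      have hadj' : H.Adj a.1 z.1 := hadj
      rcases hcov z.1 with h1 | h1 | h1
      · exact h1
      · exact absurd hadj' (hno _ ha _ h1)
      · exact absurd h1 z.2
  exact hCD e (key _ _ p hc) he

/-- the optimum from a supergraph -/
lemma least_of_super (G H : SimpleGraph V) (k : ℕ) (hn : k + 1 ≤ Fintype.card V) (hGH : G ≤ H)
    (hsep : SepFree H k) (hsum : ∑ v, dg H v ≤ k * Fintype.card V + 1) :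
    ∃ T : ℕ, T + G.edgeSet.ncard = (k * Fintype.card V + 1) / 2 ∧
      IsLeast (AugmentingSizes G k) T := by
  have hHconn := nodeConnected_of_sepFree H k hn hsep
  have hlow : ∀ H' : SimpleGraph V, NodeConnected H' k →
      (k * Fintype.card V + 1) / 2 ≤ H'.edgeSet.ncard := by
    intro H' hH'
    have h1 := sum_dg_eq H'
    have h2 : ∑ _v : V, k ≤ ∑ v, dg H' v :=
      Finset.sum_le_sum (fun v _ => le_dg_of_nodeConnected H' k hH' v)
    rw [Finset.sum_const, Finset.card_univ, smul_eq_mul, Nat.mul_comm] at h2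
    omega
  have hHedges : H.edgeSet.ncard = (k * Fintype.card V + 1) / 2 := by
    have h1 := hlow H hHconn
    have h2 := sum_dg_eq H
    omega
  have hF : H \ G ≤ Gᶜ := by
    intro x y hxy
    rw [SimpleGraph.sdiff_adj] at hxy
    rw [SimpleGraph.compl_adj]
    exact ⟨hxy.1.ne, hxy.2⟩
  have hsup : G ⊔ (H \ G) = H := sup_sdiff_cancel_right hGH
  have hcount := ncard_edges_sup G (H \ G) hF
  rw [hsup, hHedges] at hcount
  refine ⟨(H \ G).edgeSet.ncard, by omega, ?_, ?_⟩
  · exact ⟨H \ G, hF, by rw [hsup]; exact hHconn, rfl⟩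
  · rintro t ⟨F, hF1, hF2, rfl⟩
    have h1 := hlow _ hF2
    have h2 := ncard_edges_sup G F hF1
    omega

lemma dg_eq_ncard (G : SimpleGraph V) (v : V) : dg G v = (G.neighborSet v).ncard := by
  unfold dg
  rw [← Set.ncard_coe_finset]
  congr 1
  ext w
  rw [Finset.mem_coe, mem_nb, SimpleGraph.mem_neighborSet]

/-- the optimum exists -/
lemma exists_least (G : SimpleGraph V) (k : ℕ) (hn : k + 1 ≤ Fintype.card V) :
    ∃ T : ℕ, IsLeast (AugmentingSizes G k) T := by
  have hne : (AugmentingSizes G k).Nonempty := by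
    refine ⟨_, Gᶜ, le_refl _, ?_, rfl⟩
    rw [sup_compl_eq_top]
    refine nodeConnected_of_sepFree ⊤ k hn ?_
    intro C D X _ hCD _ _ hC hD _ hno
    obtain ⟨c, hc⟩ := hC
    obtain ⟨e, he⟩ := hD
    refine hno c hc e he ?_
    rw [SimpleGraph.top_adj]
    rintro rfl
    exact hCD c hc he
  exact ⟨sInf (AugmentingSizes G k), Nat.sInf_mem hne, fun t ht => Nat.sInf_le ht⟩

end proofs

/-- **One half is the threshold.** (a) For dense targets, the least number of edges of an augmenting
set is `⌈k n / 2⌉ - |E(G)|` for all graphs of maximum degree below about `n / 2`. (b) The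
augmentation problem for all graphs reduces to graphs of maximum degree about `n / 2` and targets
close to the number of vertices. -/
theorem result :
    (∃ n₀ : ℕ, ∀ n : ℕ, n₀ ≤ n → ∀ (G : SimpleGraph (Fin n)) (d k : ℕ),
      (∀ v, (G.neighborSet v).ncard ≤ d) → k + 1 ≤ n →
      3 * ((n : ℝ) - k) + 2 * d + (n : ℝ) ^ ((9 : ℝ) / 10) ≤ n →
      ∃ T : ℕ, T + G.edgeSet.ncard = (k * n + 1) / 2 ∧ IsLeast (AugmentingSizes G k) T) ∧
    (∀ (n₀ : ℕ) (G₀ : SimpleGraph (Fin n₀)) (k₀ a : ℕ), k₀ + 1 ≤ n₀ → 2 * n₀ ≤ a →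
      (∀ v, ((Blown G₀ a).neighborSet v).ncard + 1 ≤ a + n₀) ∧
      ∃ T : ℕ, IsLeast (AugmentingSizes G₀ k₀) T ∧
        IsLeast (AugmentingSizes (Blown G₀ a) (k₀ + 2 * a)) (T + a * (a + k₀ + 1))) := by
  classical
  refine ⟨?_, ?_⟩
  · obtain ⟨m₀, hm₀⟩ := Pool.Agent.BD48.num_large2
    refine ⟨m₀, ?_⟩
    intro n hn G d k hd hk hcond
    have hd' : ∀ v, Pool.Agent.BD48.dg G v ≤ d := fun v => by rw [dg_eq_ncard]; exact hd v
    have hnpos : (0 : ℝ) < n := by
      have : 0 < n := by omega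
      exact_mod_cast this
    have hpow : (0 : ℝ) < (n : ℝ) ^ ((9 : ℝ) / 10) := Real.rpow_pos_of_pos hnpos _
    obtain ⟨t, ht⟩ : ∃ t, n = k + 1 + t := ⟨n - (k + 1), by omega⟩
    have hcond1 : 3 * ((t : ℝ) + 1) + 2 * d + (n : ℝ) ^ ((9 : ℝ) / 10) ≤ n := by
      have : ((n : ℕ) : ℝ) - k = t + 1 := by
        rw [ht]
        push_cast
        ring
      rw [this] at hcond
      exact hcond
    have hcond2 : 2 * d + 3 * t + 3 ≤ n := by
      have h2 : ((2 * d + 3 * t + 3 : ℕ) : ℝ) ≤ (n : ℝ) := by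
        push_cast
        linarith
      exact_mod_cast h2
    obtain ⟨s, hs⟩ : ∃ s, n = s + 2 * d + 3 * t + 3 := ⟨n - (2 * d + 3 * t + 3), by omega⟩
    have hs1 : (n : ℝ) ^ ((9 : ℝ) / 10) ≤ s := by
      have : (n : ℝ) = s + 2 * d + 3 * t + 3 := by exact_mod_cast hs
      linarith
    have hs0 : 0 < s := by
      have : (0 : ℝ) < s := lt_of_lt_of_le hpow hs1
      exact_mod_cast this
    have hcard : Fintype.card (Fin n) = n := Fintype.card_fin n
    obtain ⟨H, h1, h2, h3⟩ := Pool.Agent.BD48.exists_superH G d k t s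
      (by rw [hcard]; exact fun h => hm₀ n s t hn hs1 h) hd'
      (by rw [hcard]; exact ht) (by rw [hcard]; exact hs) hs0
    have h4 := least_of_super G H k (by rw [hcard]; exact hk) h1 h2 h3
    rw [hcard] at h4
    exact h4
  · intro n₀ G₀ k₀ a hk ha
    have hcard : Fintype.card (Fin n₀) = n₀ := Fintype.card_fin n₀
    have hcard2 : Fintype.card (Fin n₀ ⊕ (Fin a ⊕ Fin a)) = n₀ + (a + a) := by
      simp
    refine ⟨?_, ?_⟩
    · intro v
      rw [← dg_eq_ncard]
      have h := Pool.Agent.BD48.big_degree G₀ a (by omega) v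
      rw [hcard] at h
      exact h
    · obtain ⟨T, hT⟩ := exists_least G₀ k₀ (by rw [hcard]; exact hk)
      refine ⟨T, hT, ?_, ?_⟩
      · obtain ⟨F₀, h1, h2, h3⟩ := hT.1
        obtain ⟨F, h4, h5, h6⟩ := Pool.Agent.BD48.red_upper G₀ F₀ k₀ a (by rw [hcard]; exact hk)
          (by rw [hcard]; exact ha) h1 (sepFree_of_nodeConnected _ _ h2)
        refine ⟨F, h4, nodeConnected_of_sepFree _ _ (by rw [hcard2]; omega) h5, ?_⟩
        rw [h6, h3]
      · rintro t ⟨F, h1, h2, rfl⟩
        obtain ⟨F₀, h3, h4, h5⟩ := Pool.Agent.BD48.red_lower G₀ k₀ a (by rw [hcard]; exact hk) F h1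
          (sepFree_of_nodeConnected _ _ h2)
        have h6 := hT.2 ⟨F₀, h3, nodeConnected_of_sepFree _ _ (by rw [hcard]; exact hk) h4, rfl⟩
        omega

end Pool.Agent.Results.MP_cccaab_lc.HalfThreshold
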