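import Mathlib
import Pool.Agent.H20NC.Core

/-!
Degree vectors of node-connectivity augmentations form constant-parity jump systems.
-/

namespace Pool.Agent.Results.MP_cccaab_lc.JumpSystem

open Finset

variable {V : Type*} [Fintype V]

/-- `G` is `k`-node-connected: it has at least `k + 1` vertices and `G - X` is connected for every
set `X` of at most `k - 1` vertices. -/
def NodeConnected (G : SimpleGraph V) (k : ℕ) : Prop :=
  k + 1 ≤ Fintype.card V ∧
    ∀ X : Finset V, X.card + 1 ≤ k → (G.induce {v | v ∉ X}).Connected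

/-- `F` is a set of new edges whose addition makes `G` a `k`-node-connected graph. -/
def Augments (G : SimpleGraph V) (k : ℕ) (F : SimpleGraph V) : Prop :=
  F ≤ Gᶜ ∧ NodeConnected (G ⊔ F) k

/-- the degree vector of an edge set -/
noncomputable def degVec (F : SimpleGraph V) : V → ℤ := fun v => ((F.neighborSet v).ncard : ℤ)

/-- `s` is the integer `c` times the unit vector of the coordinate `w`. -/
def IsUnitVec (c : ℤ) (w : V) (s : V → ℤ) : Prop := s w = c ∧ ∀ v, v ≠ w → s v = 0

/-- `s` is a unit step from `x` towards `y`. -/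
def IsStep (x y s : V → ℤ) : Prop :=
  ∃ w, (IsUnitVec 1 w s ∧ x w < y w) ∨ (IsUnitVec (-1) w s ∧ y w < x w)

/-- constant-parity jump systems (two-step axiom) -/
def IsConstantParityJumpSystem (J : Set (V → ℤ)) : Prop :=
  (∀ x ∈ J, ∀ y ∈ J, Even (∑ v, (x v - y v))) ∧
    ∀ x ∈ J, ∀ y ∈ J, ∀ s, IsStep x y s → ∃ r, IsStep (x + s) y r ∧ x + s + r ∈ J

section proofs

open Pool.Agent.H20NC

set_option linter.unusedSectionVars false

attribute [local instance] Classical.propDecidable

lemma degVec_eq (F : SimpleGraph V) : degVec F = dg F := by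
  funext v
  unfold degVec dg
  congr 1
  rw [← Set.ncard_coe_finset]
  congr 1
  ext w
  rw [SimpleGraph.mem_neighborSet, Finset.mem_coe, mem_nb]

/-- no large biclique in the complement of a highly connected graph -/
lemma free_of_nodeConnected {G : SimpleGraph V} {k t : ℕ} (ht : k + 1 + t = Fintype.card V)
    (h : NodeConnected G k) : Free t Gᶜ := by
  intro A B hA hB hK
  by_contra hcon
  have hdisj : Disjoint A B := by
    rw [Finset.disjoint_left]
    intro x hx hx'
    exact (hK x hx x hx').ne rfl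
  have hcard : (A ∪ B).card = A.card + B.card := Finset.card_union_of_disjoint hdisj
  have hX : ((A ∪ B)ᶜ).card + 1 ≤ k := by
    rw [Finset.card_compl]
    have := Finset.card_le_univ (A ∪ B)
    omega
  have hconn := h.2 _ hX
  obtain ⟨a, ha⟩ := hA
  obtain ⟨b, hb⟩ := hB
  have haX : a ∈ {v | v ∉ (A ∪ B)ᶜ} := by
    rw [Set.mem_ofPred_eq, Finset.mem_compl, not_not]
    exact Finset.mem_union_left _ ha
  have hbX : b ∈ {v | v ∉ (A ∪ B)ᶜ} := by
    rw [Set.mem_ofPred_eq, Finset.mem_compl, not_not]
    exact Finset.mem_union_right _ hb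
  obtain ⟨p⟩ := hconn.preconnected ⟨a, haX⟩ ⟨b, hbX⟩
  have hwalk : ∀ (x y : {v | v ∉ (A ∪ B)ᶜ}), (G.induce {v | v ∉ (A ∪ B)ᶜ}).Walk x y →
      (x : V) ∈ A → (y : V) ∈ A := by
    intro x y p
    induction p with
    | nil => exact fun h => h
    | @cons x y w hadj p ih =>
      intro hx
      apply ih
      have hy := y.2
      rw [Set.mem_ofPred_eq, Finset.mem_compl, not_not, Finset.mem_union] at hy
      rcases hy with hy | hy
      · exact hy
      · exfalso
        have h1 := hK _ hx _ hy
        rw [SimpleGraph.compl_adj] at h1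
        exact h1.2 hadj
  have hbA : b ∈ A := hwalk _ _ p ha
  exact Finset.disjoint_left.1 hdisj hbA hb

lemma nodeConnected_of_free {G : SimpleGraph V} {k t : ℕ} (ht : k + 1 + t = Fintype.card V)
    (h : Free t Gᶜ) : NodeConnected G k := by
  refine ⟨by omega, ?_⟩
  intro X hX
  have hne : Nonempty {v | v ∉ X} := by
    by_contra hcon
    have h1 : (Finset.univ : Finset V) ⊆ X := by
      intro v _
      by_contra hv
      exact hcon ⟨⟨v, hv⟩⟩
    have h2 := Finset.card_le_card h1
    rw [Finset.card_univ] at h2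
    omega
  refine ⟨?_⟩
  intro x y
  by_contra hxy
  set A : Finset V := univ.filter (fun v => ∃ hv : v ∉ X,
    (G.induce {v | v ∉ X}).Reachable x ⟨v, hv⟩) with hA
  set B : Finset V := univ.filter (fun v => v ∉ X ∧ v ∉ A) with hB
  have hxA : (x : V) ∈ A := by
    rw [hA, Finset.mem_filter]
    exact ⟨Finset.mem_univ _, x.2, SimpleGraph.Reachable.refl _⟩
  have hyB : (y : V) ∈ B := by
    rw [hB, Finset.mem_filter]
    refine ⟨Finset.mem_univ _, y.2, ?_⟩
    rw [hA, Finset.mem_filter]
    rintro ⟨_, hv, h1⟩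
    exact hxy h1
  have hK : ∀ a ∈ A, ∀ b ∈ B, Gᶜ.Adj a b := by
    intro a ha b hb
    rw [hB, Finset.mem_filter] at hb
    rw [SimpleGraph.compl_adj]
    refine ⟨?_, ?_⟩
    · rintro rfl
      exact hb.2.2 ha
    · intro hab
      apply hb.2.2
      rw [hA, Finset.mem_filter] at ha ⊢
      obtain ⟨_, hv, h1⟩ := ha
      refine ⟨Finset.mem_univ _, hb.2.1, h1.trans ?_⟩
      exact SimpleGraph.Adj.reachable hab
  have h1 := h A B ⟨_, hxA⟩ ⟨_, hyB⟩ hK
  have h2 : A ∪ B ∪ X = univ := by
    ext v
    rw [Finset.mem_union, Finset.mem_union]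
    constructor
    · intro _; exact Finset.mem_univ _
    · intro _
      by_cases hvX : v ∈ X
      · exact Or.inr hvX
      · left
        by_cases hvA : v ∈ A
        · exact Or.inl hvA
        · right
          rw [hB, Finset.mem_filter]
          exact ⟨Finset.mem_univ _, hvX, hvA⟩
  have h3 : Fintype.card V ≤ A.card + B.card + X.card := by
    rw [← Finset.card_univ, ← h2]
    exact (Finset.card_union_le _ _).trans (Nat.add_le_add_right (Finset.card_union_le _ _) _)
  omega

lemma isUnitVec_iff (c : ℤ) (w : V) (s : V → ℤ) : IsUnitVec c w s ↔ s = Pi.single w c := by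
  constructor
  · rintro ⟨h1, h2⟩
    funext v
    by_cases hv : v = w
    · subst hv
      rw [Pi.single_eq_same, h1]
    · rw [Pi.single_eq_of_ne hv, h2 v hv]
  · rintro rfl
    exact ⟨Pi.single_eq_same _ _, fun v hv => Pi.single_eq_of_ne hv _⟩

lemma isStep_iff (x y s : V → ℤ) : IsStep x y s ↔ Step x y s := by
  unfold IsStep Step
  simp only [isUnitVec_iff]

lemma step_neg (x y s : V → ℤ) (c : V → ℤ) (h : Step (c - x) (c - y) s) : Step x y (-s) := by
  obtain ⟨w, ⟨rfl, h1⟩ | ⟨rfl, h1⟩⟩ := h
  · refine ⟨w, Or.inr ⟨?_, ?_⟩⟩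
    · rw [← Pi.single_neg]
    · rw [Pi.sub_apply, Pi.sub_apply] at h1
      omega
  · refine ⟨w, Or.inl ⟨?_, ?_⟩⟩
    · rw [← Pi.single_neg, neg_neg]
    · rw [Pi.sub_apply, Pi.sub_apply] at h1
      omega

/-- degrees in a complement inside a host graph -/
lemma dg_sdiff {H M : SimpleGraph V} (h : M ≤ H) : dg (H \ M) = dg H - dg M := by
  funext v
  rw [Pi.sub_apply]
  unfold dg
  have h1 : nb (H \ M) v = nb H v \ nb M v := by
    ext w
    rw [mem_nb, Finset.mem_sdiff, mem_nb, mem_nb, SimpleGraph.sdiff_adj]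
  have h2 : nb M v ⊆ nb H v := fun w hw => mem_nb.2 (h (mem_nb.1 hw))
  rw [h1, Finset.card_sdiff_of_subset h2, Nat.cast_sub (Finset.card_le_card h2)]

lemma augments_iff {G F : SimpleGraph V} {k t : ℕ} (ht : k + 1 + t = Fintype.card V)
    (hF : F ≤ Gᶜ) : Augments G k F ↔ Free t (Gᶜ \ F) := by
  have h1 : (G ⊔ F)ᶜ = Gᶜ \ F := by
    rw [compl_sup, sdiff_eq]
  unfold Augments
  rw [← h1]
  constructor
  · rintro ⟨_, h2⟩
    exact free_of_nodeConnected ht h2
  · intro h2
    exact ⟨hF, nodeConnected_of_free ht h2⟩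

/-- the exchange property for augmenting sets -/
lemma augment_exchange {G : SimpleGraph V} {k t : ℕ} (ht : k + 1 + t = Fintype.card V)
    (hthin : Thin t Gᶜ) {F1 F2 : SimpleGraph V} (h1 : Augments G k F1) (h2 : Augments G k F2)
    {s : V → ℤ} (hs : Step (dg F1) (dg F2) s) :
    ∃ (F : SimpleGraph V) (r : V → ℤ), Augments G k F ∧ Step (dg F1 + s) (dg F2) r ∧
      dg F = dg F1 + s + r := by
  have hM := (augments_iff ht h1.1).1 h1
  have hN := (augments_iff ht h2.1).1 h2
  have e1 := dg_sdiff h1.1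
  have e2 := dg_sdiff h2.1
  have hs' : Step (dg (Gᶜ \ F1)) (dg (Gᶜ \ F2)) (-s) := by
    apply step_neg _ _ _ (dg Gᶜ)
    rw [e1, e2, sub_sub_cancel, sub_sub_cancel]
    exact hs
  obtain ⟨M', r, a1, a2, _, a4, a5⟩ := exchange (sdiff_le) hN hthin _ _ hM sdiff_le rfl _ hs'
  have e3 : Gᶜ \ (Gᶜ \ M') = M' := sdiff_sdiff_eq_self a2
  refine ⟨Gᶜ \ M', -r, ?_, ?_, ?_⟩
  · rw [augments_iff ht sdiff_le, e3]
    exact a1
  · apply step_neg _ _ _ (dg Gᶜ)
    have e4 : dg Gᶜ - (dg F1 + s) = dg (Gᶜ \ F1) + -s := by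
      rw [e1]; abel
    have e5 : dg Gᶜ - dg F2 = dg (Gᶜ \ F2) := e2.symm
    rw [e4, e5]
    exact a4
  · rw [dg_sdiff a2, a5, e1]
    abel

lemma sum_dg (F : SimpleGraph V) : ∑ v, dg F v = 2 * (F.edgeSet.ncard : ℤ) := by
  have h1 := F.sum_degrees_eq_twice_card_edges
  have h2 : F.edgeSet.ncard = F.edgeFinset.card := by
    rw [← Set.ncard_coe_finset, SimpleGraph.coe_edgeFinset]
  have h3 : ∀ v, dg F v = (F.degree v : ℤ) := by
    intro v
    unfold dg
    congr 1
    rw [← SimpleGraph.card_neighborFinset_eq_degree]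
    congr 1
    ext w
    rw [mem_nb, SimpleGraph.mem_neighborFinset]
  rw [h2]
  simp only [h3]
  exact_mod_cast h1

/-- the `l1` distance -/
noncomputable def dist (x y : V → ℤ) : ℕ := ∑ v, (x v - y v).natAbs

lemma dist_step {x y s : V → ℤ} (h : Step y x s) : dist x (y + s) + 1 = dist x y := by
  have key : ∀ (w : V) (c : ℤ), (x w - (y w + c)).natAbs + 1 = (x w - y w).natAbs →
      dist x (y + Pi.single w c) + 1 = dist x y := by
    intro w c hc
    unfold dist
    rw [← Finset.add_sum_erase _ _ (Finset.mem_univ w),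
      ← Finset.add_sum_erase (a := w) _ (fun v => (x v - y v).natAbs) (Finset.mem_univ w)]
    have h1 : ∑ v ∈ Finset.univ.erase w, (x v - (y + (Pi.single w c : V → ℤ)) v).natAbs =
        ∑ v ∈ Finset.univ.erase w, (x v - y v).natAbs := by
      apply Finset.sum_congr rfl
      intro v hv
      rw [Finset.mem_erase] at hv
      rw [Pi.add_apply, Pi.single_eq_of_ne hv.1, add_zero]
    rw [h1, Pi.add_apply, Pi.single_eq_same]
    omega
  obtain ⟨w, ⟨rfl, h1⟩ | ⟨rfl, h1⟩⟩ := h
  · exact key w 1 (by omega)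
  · exact key w (-1) (by omega)

lemma sum_single (w : V) (c : ℤ) : ∑ v, (Pi.single w c : V → ℤ) v = c := by
  rw [Finset.sum_pi_single']
  simp

/-- a feasible set is optimal iff it has no feasible neighbour with smaller degree sum -/
lemma optimal_iff {G : SimpleGraph V} {k t : ℕ} (ht : k + 1 + t = Fintype.card V)
    (hthin : Thin t Gᶜ) {F : SimpleGraph V} (hF : Augments G k F) :
    (∀ F', Augments G k F' → F.edgeSet.ncard ≤ F'.edgeSet.ncard) ↔
      ¬ ∃ (F' : SimpleGraph V) (a b : V), Augments G k F' ∧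
        dg F' = dg F + Pi.single a (-1) + Pi.single b (-1) := by
  constructor
  · rintro h ⟨F', a, b, h1, h2⟩
    have h3 := h F' h1
    have h4 := sum_dg F
    have h5 := sum_dg F'
    rw [h2] at h5
    simp only [Pi.add_apply, Finset.sum_add_distrib, sum_single] at h5
    omega
  · intro hno F0 hF0
    by_contra hcon
    have hex : ∃ d : ℕ, ∃ F' : SimpleGraph V, Augments G k F' ∧
        F'.edgeSet.ncard < F.edgeSet.ncard ∧ dist (dg F) (dg F') = d :=
      ⟨_, F0, hF0, by omega, rfl⟩
    obtain ⟨F', h1, h2, h3⟩ := Nat.find_spec hex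
    have hmin : ∀ F'' : SimpleGraph V, Augments G k F'' →
        F''.edgeSet.ncard < F.edgeSet.ncard → dist (dg F) (dg F') ≤ dist (dg F) (dg F'') := by
      intro F'' g1 g2
      rw [h3]
      exact Nat.find_min' hex ⟨F'', g1, g2, rfl⟩
    have hs := sum_dg F
    have hs' := sum_dg F'
    by_cases hw : ∃ w, dg F w < dg F' w
    · obtain ⟨w, hw⟩ := hw
      have hst : Step (dg F') (dg F) (Pi.single w (-1)) := ⟨w, Or.inr ⟨rfl, hw⟩⟩
      obtain ⟨F'', r, g1, g2, g3⟩ := augment_exchange ht hthin h1 hF hst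
      have e1 := dist_step hst
      have e2 := dist_step g2
      rw [← g3] at e2
      have hs'' := sum_dg F''
      have hr : ∑ v, r v ≤ 1 := by
        obtain ⟨b, ⟨rfl, _⟩ | ⟨rfl, _⟩⟩ := g2
        · rw [sum_single]
        · rw [sum_single]; norm_num
      rw [g3] at hs''
      simp only [Pi.add_apply, Finset.sum_add_distrib, sum_single] at hs''
      have := hmin F'' g1 (by omega)
      omega
    · push Not at hw
      have hex2 : ∃ w, dg F' w < dg F w := by
        by_contra hcon2
        push Not at hcon2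
        have h5 : ∑ v, dg F v ≤ ∑ v, dg F' v := Finset.sum_le_sum (fun v _ => hcon2 v)
        omega
      obtain ⟨w, hw2⟩ := hex2
      have hst : Step (dg F') (dg F) (Pi.single w 1) := ⟨w, Or.inl ⟨rfl, hw2⟩⟩
      obtain ⟨F'', r, g1, g2, g3⟩ := augment_exchange ht hthin h1 hF hst
      have e1 := dist_step hst
      have e2 := dist_step g2
      rw [← g3] at e2
      have hle1 : ∀ v, (dg F' + (Pi.single w 1 : V → ℤ)) v ≤ dg F v := by
        intro v
        rw [Pi.add_apply]
        by_cases hv : v = w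
        · subst hv
          rw [Pi.single_eq_same]
          omega
        · rw [Pi.single_eq_of_ne hv, add_zero]
          exact hw v
      obtain ⟨b, ⟨rfl, g4⟩ | ⟨rfl, g4⟩⟩ := g2
      · have hs'' := sum_dg F''
        rw [g3] at hs''
        simp only [Pi.add_apply, Finset.sum_add_distrib, sum_single] at hs''
        by_cases hlt : F''.edgeSet.ncard < F.edgeSet.ncard
        · have := hmin F'' g1 hlt
          omega
        · have hle2 : ∀ v, dg F'' v ≤ dg F v := by
            intro v
            rw [g3, Pi.add_apply (dg F' + Pi.single w 1)]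
            by_cases hv : v = b
            · subst hv
              rw [Pi.single_eq_same]
              omega
            · rw [Pi.single_eq_of_ne hv, add_zero]
              exact hle1 v
          have hs3 := sum_dg F''
          have heq : ∀ v ∈ (Finset.univ : Finset V), dg F'' v = dg F v := by
            rw [← Finset.sum_eq_sum_iff_of_le (fun v _ => hle2 v)]
            apply le_antisymm (Finset.sum_le_sum (fun v _ => hle2 v))
            omega
          apply hno
          refine ⟨F', w, b, h1, ?_⟩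
          have heq2 : dg F = dg F' + Pi.single w 1 + Pi.single b 1 := by
            rw [← g3]
            funext v
            exact (heq v (Finset.mem_univ v)).symm
          rw [heq2]
          have e3 : (Pi.single w 1 : V → ℤ) + Pi.single w (-1) = 0 := by
            rw [← Pi.single_add]; simp
          have e4 : (Pi.single b 1 : V → ℤ) + Pi.single b (-1) = 0 := by
            rw [← Pi.single_add]; simp
          calc dg F' = dg F' + ((Pi.single w 1 : V → ℤ) + Pi.single w (-1)) +
              ((Pi.single b 1 : V → ℤ) + Pi.single b (-1)) := by rw [e3, e4, add_zero, add_zero]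
            _ = _ := by abel
      · have := hle1 b
        omega

lemma nonempty_aug (G : SimpleGraph V) (k : ℕ) (hk : k + 1 ≤ Fintype.card V) :
    Augments G k Gᶜ := by
  refine ⟨le_rfl, ?_⟩
  rw [sup_compl_eq_top]
  have ht : k + 1 + (Fintype.card V - (k + 1)) = Fintype.card V := by omega
  apply nodeConnected_of_free ht
  rw [compl_top]
  intro A B hA hB hK
  obtain ⟨a, ha⟩ := hA
  obtain ⟨b, hb⟩ := hB
  exact absurd (hK a ha b hb) (by simp)

end proofs

/-- **Theorem.** Let `k ≤ n - 1`. Suppose that `k ≥ n - 4`, or that any two disjoint vertex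
sets with at least three vertices each and with `n - k + 1` vertices together are joined by an
edge of `G`. Then the degree vectors of the augmenting edge sets form a nonempty constant-parity
jump system, and an augmenting set is of minimum size iff no augmenting set has a degree vector
which is smaller by two unit vectors. -/
theorem result {V : Type*} [Fintype V] (G : SimpleGraph V) (k : ℕ)
    (hk : k + 1 ≤ Fintype.card V)
    (hG : k + 5 ≤ Fintype.card V → ∀ A B : Finset V, Disjoint A B → 3 ≤ A.card → 3 ≤ B.card →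
      A.card + B.card + k = Fintype.card V + 1 → ∃ a ∈ A, ∃ b ∈ B, G.Adj a b) :
    {x | ∃ F, Augments G k F ∧ x = degVec F}.Nonempty ∧
    IsConstantParityJumpSystem {x | ∃ F, Augments G k F ∧ x = degVec F} ∧
    ∀ F, Augments G k F →
      ((∀ F', Augments G k F' → F.edgeSet.ncard ≤ F'.edgeSet.ncard) ↔
        ¬ ∃ (F' : SimpleGraph V) (s r : V → ℤ) (a b : V), Augments G k F' ∧
          IsUnitVec (-1) a s ∧ IsUnitVec (-1) b r ∧ degVec F' = degVec F + s + r) := by
  classical
  obtain ⟨t, ht⟩ : ∃ t, k + 1 + t = Fintype.card V := ⟨Fintype.card V - (k + 1), by omega⟩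
  have hthin : Pool.Agent.H20NC.Thin t Gᶜ := by
    intro A B hA hB hAB hK
    have hdisj : Disjoint A B := by
      rw [Finset.disjoint_left]
      intro x hx hx'
      exact (hK x hx x hx').ne rfl
    obtain ⟨a, ha, b, hb, hab⟩ := hG (by omega) A B hdisj hA hB (by omega)
    have h1 := hK a ha b hb
    rw [SimpleGraph.compl_adj] at h1
    exact h1.2 hab
  refine ⟨⟨_, _, nonempty_aug G k hk, rfl⟩, ⟨?_, ?_⟩, ?_⟩
  · rintro x ⟨F1, h1, rfl⟩ y ⟨F2, h2, rfl⟩
    rw [Finset.sum_sub_distrib, degVec_eq, degVec_eq, sum_dg, sum_dg, ← mul_sub]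
    exact even_two_mul _
  · rintro x ⟨F1, h1, rfl⟩ y ⟨F2, h2, rfl⟩ s hs
    rw [isStep_iff, degVec_eq, degVec_eq] at hs
    have hs2 := hs
    obtain ⟨F, r, g1, g2, g3⟩ := augment_exchange ht hthin h1 h2 (s := s) (by
      convert hs)
    refine ⟨r, ?_, F, g1, ?_⟩
    · rw [isStep_iff, degVec_eq, degVec_eq]
      convert g2
    · rw [degVec_eq, degVec_eq, g3]
  · intro F hF
    rw [optimal_iff ht hthin hF]
    apply not_congr
    constructor
    · rintro ⟨F', a, b, h1, h2⟩
      refine ⟨F', _, _, a, b, h1, (isUnitVec_iff _ _ _).2 rfl, (isUnitVec_iff _ _ _).2 rfl, ?_⟩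
      rw [degVec_eq, degVec_eq, h2]
    · rintro ⟨F', s, r, a, b, h1, h2, h3, h4⟩
      rw [isUnitVec_iff] at h2 h3
      subst h2
      subst h3
      rw [degVec_eq, degVec_eq] at h4
      exact ⟨F', a, b, h1, h4⟩

end Pool.Agent.Results.MP_cccaab_lc.JumpSystem
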