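import Mathlib
import Pool.Agent.BD48.RegG
import Pool.Agent.BD48.RegBG
import Pool.Agent.BD48.RegBH
import Pool.Agent.BD48.RegBK
import Pool.Agent.BD48.KerT
import Pool.Agent.BD48.Acyc

/-!
Undirected node-connectivity augmentation of sparse graphs: graphs with an orientation of small
outdegree (small degeneracy).
-/

namespace Pool.Agent.Results.MP_cccaab_lc.Sparse

open Finset

variable {V : Type*} [Fintype V]

/-- `G` is `k`-node-connected: it has at least `k + 1` vertices and `G - X` is connected for every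
set `X` of at most `k - 1` vertices. -/
def NodeConnected (G : SimpleGraph V) (k : ℕ) : Prop :=
  k + 1 ≤ Fintype.card V ∧
    ∀ X : Finset V, X.card + 1 ≤ k → (G.induce {v | v ∉ X}).Connected

/-- The numbers of edges of the augmenting sets: `F` is a set of edges of the complement of `G` and
`G + F` is `k`-node-connected. -/
def AugmentingSizes (G : SimpleGraph V) (k : ℕ) : Set ℕ :=
  {t | ∃ F : SimpleGraph V, F ≤ Gᶜ ∧ NodeConnected (G ⊔ F) k ∧ F.edgeSet.ncard = t}

/-- The edges of `G` can be oriented with all outdegrees at most `D`: the edges leaving `v` end in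
`out v`. -/
def Orientable {V : Type*} (G : SimpleGraph V) (D : ℕ) : Prop :=
  ∃ out : V → Finset V, (∀ v, (out v).card ≤ D) ∧ ∀ x y, G.Adj x y → y ∈ out x ∨ x ∈ out y

/-- The neighbours of the vertices of `X` outside `X`. -/
def outerNeighbours {V : Type*} (G : SimpleGraph V) (X : Finset V) : Set V :=
  {w | w ∉ X ∧ ∃ x ∈ X, G.Adj x w}

/-- `F` consists of pairwise disjoint nonempty sets with at most `n - k` vertices each. -/
def IsFamily {V : Type*} [Fintype V] (k : ℕ) (F : Finset (Finset V)) : Prop :=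
  (∀ X ∈ F, X.Nonempty ∧ X.card + k ≤ Fintype.card V) ∧
    ∀ X ∈ F, ∀ Y ∈ F, X ≠ Y → Disjoint X Y

/-- The sum of `max (0, k - |N(X)|)` over the sets `X` of `F`. -/
noncomputable def demand {V : Type*} (G : SimpleGraph V) (k : ℕ) (F : Finset (Finset V)) : ℕ :=
  ∑ X ∈ F, (k - (outerNeighbours G X).ncard)

/-- The vertices of degree greater than `k / (10 ^ 8 (D + 1))`. -/
def Big {V : Type*} (G : SimpleGraph V) (D k : ℕ) : Set V :=
  {v | k < 10 ^ 8 * (D + 1) * (G.neighborSet v).ncard}

/-- `G` with all edges between vertices outside `B` added. -/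
def fillOutside {V : Type*} (G : SimpleGraph V) (B : Set V) : SimpleGraph V where
  Adj x y := G.Adj x y ∨ (x ≠ y ∧ x ∉ B ∧ y ∉ B)
  symm := ⟨fun _ _ h => h.elim (fun a => Or.inl a.symm) (fun a => Or.inr ⟨a.1.symm, a.2.2, a.2.1⟩)⟩
  loopless := ⟨fun _ h => h.elim (fun a => a.ne rfl) (fun a => a.1 rfl)⟩

/-- The sums of the degrees at `B` of the sets `N` of new edges for which `fillOutside G B + N` is
`k`-node-connected. -/
def KernelValues {V : Type*} [Fintype V] (G : SimpleGraph V) (B : Set V) (k : ℕ) : Set ℕ :=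
  {m | ∃ N : SimpleGraph V, N ≤ (fillOutside G B)ᶜ ∧ NodeConnected (fillOutside G B ⊔ N) k ∧
    ∑ v ∈ (Set.toFinite B).toFinset, (N.neighborSet v).ncard = m}

/-- No three vertices have `s` common neighbours. -/
def FewCommon {V : Type*} (G : SimpleGraph V) (s : ℕ) : Prop :=
  ∀ x y z, x ≠ y → x ≠ z → y ≠ z →
    (G.neighborSet x ∩ G.neighborSet y ∩ G.neighborSet z).ncard < s

/-- The number of the edges `xy` of `G` with `d(x) = d(y) = k`, with the same neighbours outside
`{x, y}`, and not adjacent to all other vertices. -/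
noncomputable def twinEdges (G : SimpleGraph V) (k : ℕ) : ℕ :=
  {e : Sym2 V | ∃ x y, e = s(x, y) ∧ G.Adj x y ∧ (G.neighborSet x).ncard = k ∧
    (G.neighborSet y).ncard = k ∧ (∀ w, w ≠ x → w ≠ y → (G.Adj x w ↔ G.Adj y w)) ∧
    ∃ w, w ≠ x ∧ ¬ G.Adj x w}.ncard

section proofs

open Pool.Agent.BD48

attribute [local instance] Classical.propDecidable

lemma nodeConnected_of_sepFree (H : SimpleGraph V) (k : ℕ) (hk : k + 1 ≤ Fintype.card V)
    (h : SepFree H k) : NodeConnected H k := by
  refine ⟨hk, ?_⟩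
  intro X hX
  have hne : ∃ x, x ∉ X := by
    by_contra hcon
    push Not at hcon
    have : X = univ := Finset.eq_univ_iff_forall.mpr hcon
    rw [this, Finset.card_univ] at hX
    omega
  obtain ⟨x0, hx0⟩ := hne
  rw [SimpleGraph.connected_iff]
  refine ⟨?_, ⟨⟨x0, hx0⟩⟩⟩
  rintro ⟨x, hx⟩ ⟨y, hy⟩
  by_contra hxy
  let C : Finset V := univ.filter (fun z => ∃ hz : z ∉ X,
    (H.induce {v | v ∉ X}).Reachable ⟨x, hx⟩ ⟨z, hz⟩)
  let D : Finset V := univ.filter (fun z => z ∉ X ∧ z ∉ C)
  have hxC : x ∈ C := by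
    simp only [C, Finset.mem_filter, Finset.mem_univ, true_and]
    exact ⟨hx, SimpleGraph.Reachable.refl _⟩
  have hyD : y ∈ D := by
    simp only [D, C, Finset.mem_filter, Finset.mem_univ, true_and]
    refine ⟨hy, ?_⟩
    rintro ⟨_, h1⟩
    exact hxy h1
  refine h C D X ?_ ?_ ?_ ?_ ⟨x, hxC⟩ ⟨y, hyD⟩ hX ?_
  · intro z
    by_cases h1 : z ∈ X
    · exact Or.inr (Or.inr h1)
    · by_cases h2 : z ∈ C
      · exact Or.inl h2
      · right
        left
        simp only [D, Finset.mem_filter, Finset.mem_univ, true_and]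
        exact ⟨h1, h2⟩
  · intro z hz hz'
    simp only [D, Finset.mem_filter, Finset.mem_univ, true_and] at hz'
    exact hz'.2 hz
  · intro z hz
    simp only [C, Finset.mem_filter, Finset.mem_univ, true_and] at hz
    exact hz.1
  · intro z hz
    simp only [D, Finset.mem_filter, Finset.mem_univ, true_and] at hz
    exact hz.1
  · intro a ha b hb hab
    have hbX : b ∉ X := by
      simp only [D, Finset.mem_filter, Finset.mem_univ, true_and] at hb
      exact hb.1
    have hbC : b ∉ C := by
      simp only [D, Finset.mem_filter, Finset.mem_univ, true_and] at hb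
      exact hb.2
    apply hbC
    simp only [C, Finset.mem_filter, Finset.mem_univ, true_and] at ha ⊢
    obtain ⟨haX, hreach⟩ := ha
    refine ⟨hbX, hreach.trans ?_⟩
    have hadj : (H.induce {v | v ∉ X}).Adj ⟨a, haX⟩ ⟨b, hbX⟩ := hab
    exact hadj.reachable

/-- all degrees of a `k`-node-connected graph are at least `k` -/
lemma le_dg_of_nodeConnected (H : SimpleGraph V) (k : ℕ) (h : NodeConnected H k) (v : V) :
    k ≤ dg H v := by
  by_contra hcon
  push Not at hcon
  have hX : (nb H v).card + 1 ≤ k := hcon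
  have hv : v ∉ nb H v := by
    rw [mem_nb]
    exact fun h' => h'.ne rfl
  obtain ⟨w, hw⟩ : ∃ w, w ∉ insert v (nb H v) := by
    by_contra hcon'
    push Not at hcon'
    have h1 : insert v (nb H v) = univ := Finset.eq_univ_iff_forall.mpr hcon'
    have h2 := Finset.card_insert_le v (nb H v)
    rw [h1, Finset.card_univ] at h2
    have h3 := h.1
    omega
  rw [Finset.mem_insert, not_or] at hw
  have hconn := h.2 (nb H v) hX
  obtain ⟨p⟩ := hconn.preconnected ⟨v, hv⟩ ⟨w, hw.2⟩
  cases p with
  | nil => exact hw.1 rfl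
  | @cons _ z _ hadj _ =>
    have h1 : H.Adj v z.1 := hadj
    exact z.2 (mem_nb.mpr h1)

lemma sum_dg_eq (H : SimpleGraph V) : ∑ v, dg H v = 2 * H.edgeSet.ncard := by
  have h : ∀ v, dg H v = H.degree v := by
    intro v
    rw [← SimpleGraph.card_neighborFinset_eq_degree]
    refine dg_eq_card _ _ _ ?_
    intro y
    simp
  rw [Finset.sum_congr rfl (fun v _ => h v), SimpleGraph.sum_degrees_eq_twice_card_edges,
    ← SimpleGraph.coe_edgeFinset, Set.ncard_coe_finset]

lemma ncard_edges_sup (G F : SimpleGraph V) (hF : F ≤ Gᶜ) :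
    (G ⊔ F).edgeSet.ncard = G.edgeSet.ncard + F.edgeSet.ncard := by
  rw [SimpleGraph.edgeSet_sup, Set.ncard_union_eq]
  rw [Set.disjoint_left]
  intro e
  induction e using Sym2.ind with
  | _ x y =>
    intro h1 h2
    rw [SimpleGraph.mem_edgeSet] at h1 h2
    exact (hF h2).2 h1

lemma dg_eq_ncard (G : SimpleGraph V) (v : V) : dg G v = (G.neighborSet v).ncard := by
  unfold dg
  rw [← Set.ncard_coe_finset]
  congr 1
  ext w
  rw [Finset.mem_coe, mem_nb, SimpleGraph.mem_neighborSet]

lemma sepFree_of_nodeConnected (H : SimpleGraph V) (k : ℕ) (h : NodeConnected H k) :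
    SepFree H k := by
  intro C D X hcov hCD hCX hDX hC hD hXk hno
  obtain ⟨c, hc⟩ := hC
  obtain ⟨e, he⟩ := hD
  have hconn := h.2 X hXk
  obtain ⟨p⟩ := hconn.preconnected ⟨c, hCX c hc⟩ ⟨e, hDX e he⟩
  have key : ∀ (a b : {v | v ∉ X}) (_ : (H.induce {v | v ∉ X}).Walk a b), a.1 ∈ C → b.1 ∈ C := by
    intro a b p
    induction p with
    | nil => exact id
    | @cons a z b hadj _ ih =>
      intro ha
      apply ih
      have hadj' : H.Adj a.1 z.1 := hadj
      rcases hcov z.1 with h1 | h1 | h1
      · exact h1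
      · exact absurd hadj' (hno _ ha _ h1)
      · exact absurd h1 z.2
  exact hCD e (key _ _ p hc) he

lemma inter_ncard (G : SimpleGraph V) (x y z : V) :
    (G.neighborSet x ∩ G.neighborSet y ∩ G.neighborSet z).ncard
      = (nb G x ∩ nb G y ∩ nb G z).card := by
  rw [← Set.ncard_coe_finset]
  congr 1
  ext w
  simp [mem_nb, and_assoc]

/-- the twin edges, large graphs -/
lemma twinEdges_eq (G : SimpleGraph V) (k : ℕ) (hn : k + 2 ≤ Fintype.card V) :
    twinEdges G k = tau G k := by
  unfold twinEdges tau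
  congr 1
  ext e
  constructor
  · rintro ⟨x, y, h1, h2, h3, h4, h5, _⟩
    exact ⟨x, y, h1, h2, by rw [dg_eq_ncard]; exact h3, by rw [dg_eq_ncard]; exact h4, h5⟩
  · rintro ⟨x, y, h1, h2, h3, h4, h5⟩
    refine ⟨x, y, h1, h2, by rw [← dg_eq_ncard]; exact h3, by rw [← dg_eq_ncard]; exact h4, h5, ?_⟩
    by_contra hcon
    push Not at hcon
    have h6 : univ ⊆ insert x (nb G x) := by
      intro w _
      rw [Finset.mem_insert, mem_nb]
      by_cases h : w = x
      · exact Or.inl h
      · exact Or.inr (hcon w h)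
    have h7 := Finset.card_le_card h6
    have h8 := Finset.card_insert_le x (nb G x)
    have h9 : (nb G x).card = k := h3
    rw [Finset.card_univ] at h7
    omega

/-- no twin edges in the extreme case -/
lemma twinEdges_zero (G : SimpleGraph V) (k : ℕ) (hn : Fintype.card V = k + 1) :
    twinEdges G k = 0 := by
  unfold twinEdges
  have h : {e : Sym2 V | ∃ x y, e = s(x, y) ∧ G.Adj x y ∧ (G.neighborSet x).ncard = k ∧
      (G.neighborSet y).ncard = k ∧ (∀ w, w ≠ x → w ≠ y → (G.Adj x w ↔ G.Adj y w)) ∧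
      ∃ w, w ≠ x ∧ ¬ G.Adj x w} = ∅ := by
    rw [Set.eq_empty_iff_forall_notMem]
    rintro e ⟨x, y, _, hxy, h3, _, _, w, hw1, hw2⟩
    rw [← dg_eq_ncard] at h3
    have h7 : 1 < Fintype.card V := Fintype.one_lt_card_iff.mpr ⟨x, y, hxy.ne⟩
    have h4 : nb G x ⊆ (univ.erase x).erase w := by
      intro v hv
      rw [mem_nb] at hv
      rw [Finset.mem_erase, Finset.mem_erase]
      refine ⟨?_, hv.ne', Finset.mem_univ _⟩
      rintro rfl
      exact hw2 hv
    have h5 := Finset.card_le_card h4
    have h6 : (nb G x).card = k := h3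
    rw [Finset.card_erase_of_mem (Finset.mem_erase.mpr ⟨hw1, Finset.mem_univ _⟩),
      Finset.card_erase_of_mem (Finset.mem_univ _), Finset.card_univ] at h5
    omega
  rw [h, Set.ncard_empty]

lemma demand_eq (G : SimpleGraph V) (k : ℕ) (F : Finset (Finset V)) :
    demand G k F = val G k F := by
  unfold demand Pool.Agent.BD48.val
  refine Finset.sum_congr rfl (fun X _ => ?_)
  congr 1
  rw [← Set.ncard_coe_finset]
  congr 1
  ext w
  unfold onb outerNeighbours
  rw [Set.mem_ofPred_eq, Finset.mem_coe, Finset.mem_sdiff, Finset.mem_biUnion, and_comm]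
  simp only [mem_nb]

lemma isFamily_iff (k : ℕ) (F : Finset (Finset V)) : IsFamily k F ↔ Fam k F := Iff.rfl

/-- a highly connected supergraph with few edges -/
lemma exists_supergraph (D k : ℕ) (G : SimpleGraph V) (hG : Orientable G D)
    (hk : 100000000000000000000000000 * (D + 1) ^ 6 ≤ k) (hn : k + 1 ≤ Fintype.card V)
    (hcase : k + 1000000 * (D + 1) ^ 3 ≤ Fintype.card V ∨
      (Finset.univ.filter (fun v => 7 * Fintype.card V < 10 * dg G v)).card ≤ 2) :
    ∃ H : SimpleGraph V, G ≤ H ∧ SepFree H k ∧ ∃ F : Finset (Finset V), Fam k F ∧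
      (∀ X ∈ F, X.card ≤ 1000000000 * (D + 1) ^ 3) ∧
      (∀ F', Fam k F' → val G k F' ≤ val G k F) ∧
      ∑ v, dg H v ≤ ∑ v, dg G v + val G k F + 1 := by
  obtain ⟨out, hD, hout⟩ := hG
  obtain ⟨t, ht⟩ : ∃ t, Fintype.card V = k + 1 + t := ⟨Fintype.card V - (k + 1), by omega⟩
  have hD1 : 1 ≤ D + 1 := Nat.le_add_left 1 D
  have hD3 : D + 1 ≤ (D + 1) ^ 3 := Nat.le_self_pow (by norm_num) _
  have hD2 : (D + 1) ^ 2 ≤ (D + 1) ^ 3 := Nat.pow_le_pow_right hD1 (by norm_num)
  have hD6 : D + 1 ≤ (D + 1) ^ 6 := Nat.le_self_pow (by norm_num) _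
  have hkD : 100000000000000000000000000 * (D + 1) ≤ k :=
    le_trans (Nat.mul_le_mul_left _ hD6) hk
  by_cases h1 : Fintype.card V < 1000 * ((D + 1) * t)
  · obtain ⟨H, hH1, hH2, F, hF, hFc, hmax, hsum⟩ := regimeG (D + 1) hD1 V G out k t
      (fun v => le_trans (hD v) (Nat.le_succ D)) hout ht h1 hk
    refine ⟨H, hH1, hH2, F, hF, ?_, hmax, hsum⟩
    intro X hX
    exact le_trans (hFc X hX) (Nat.mul_le_mul_left _ hD2)
  · have h1000 : 1000 * (D + 1) * t ≤ Fintype.card V := by
      rw [Nat.mul_assoc]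
      omega
    by_cases h2 : 100000 * (D + 1) ^ 3 ≤ t
    · obtain ⟨H, hH1, hH2, F, hF, hFc, hmax, hsum⟩ := regimeBH D V G out k t hD hout ht h2 h1000
      refine ⟨H, hH1, hH2, F, hF, ?_, hmax, hsum⟩
      intro X hX
      have h3 := hFc X hX
      omega
    · -- few vertices outside
      have hsmall : ∀ F : Finset (Finset V), Fam k F →
          ∀ X ∈ F, X.card ≤ 1000000000 * (D + 1) ^ 3 := by
        intro F hF X hX
        have h3 := (hF.1 X hX).2
        omega
      have hgiant : (Finset.univ.filter (fun v => 7 * Fintype.card V < 10 * dg G v)).card ≤ 2 := by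
        rcases hcase with h3 | h3
        · omega
        · exact h3
      obtain ⟨F, hF, hmax⟩ := exists_max_fam G k
      have hdef : ∑ v, (k - dg G v) + ∑ v, dg G v = ∑ v, max k (dg G v) := by
        rw [← Finset.sum_add_distrib]
        refine Finset.sum_congr rfl (fun v _ => ?_)
        omega
      by_cases h0 : t = 0
      · refine ⟨⊤, le_top, ?_, F, hF, hsmall F hF, hmax, ?_⟩
        · intro C D' X _ hCD _ _ hC hD' _ hno
          obtain ⟨c, hc⟩ := hC
          obtain ⟨e, he⟩ := hD'
          refine hno c hc e he ?_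
          rw [SimpleGraph.top_adj]
          rintro rfl
          exact hCD c hc he
        · obtain ⟨F', hF', hval⟩ := fam_single G k hn
          have h3 := hmax F' hF'
          have h4 : ∑ v, dg (⊤ : SimpleGraph V) v ≤ ∑ v, max k (dg G v) := by
            refine Finset.sum_le_sum (fun v _ => ?_)
            refine le_trans ?_ (le_max_left _ _)
            rw [dg_eq_card ⊤ v (univ.erase v) (by intro y; simp [eq_comm]),
              Finset.card_erase_of_mem (Finset.mem_univ _), Finset.card_univ]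
            omega
          omega
      · obtain ⟨H, hH1, hH2, hsum⟩ := regimeBG D V G out k t hD hout hgiant ht (by omega) h1000
          (by omega)
        obtain ⟨F', hF', hval⟩ := fam_tau G k (by omega) (by
          have h3 : 1000 * t ≤ Fintype.card V := by
            refine le_trans ?_ h1000
            have h4 : 1000 * 1 * t ≤ 1000 * (D + 1) * t :=
              Nat.mul_le_mul_right _ (Nat.mul_le_mul_left _ hD1)
            omega
          omega) hgiant
        have h3 := hmax F' hF'
        exact ⟨H, hH1, hH2, F, hF, hsmall F hF, hmax, by omega⟩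

/-- the optimum from a supergraph -/
lemma isLeast_of_supergraph (G H : SimpleGraph V) (k T : ℕ) (hn : k + 1 ≤ Fintype.card V)
    (hGH : G ≤ H) (hsep : SepFree H k) (hsum : ∑ v, dg H v ≤ ∑ v, dg G v + T + 1)
    (hlow : ∀ H' : SimpleGraph V, G ≤ H' → NodeConnected H' k →
      T + ∑ v, dg G v ≤ ∑ v, dg H' v) :
    IsLeast (AugmentingSizes G k) ((T + 1) / 2) := by
  have hHconn := nodeConnected_of_sepFree H k hn hsep
  have hGE := sum_dg_eq G
  have hlow' : ∀ t ∈ AugmentingSizes G k, (T + 1) / 2 ≤ t := by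
    rintro t' ⟨F, hF1, hF2, rfl⟩
    have h1 := ncard_edges_sup G F hF1
    have h2 := sum_dg_eq (G ⊔ F)
    have h3 := hlow (G ⊔ F) le_sup_left hF2
    omega
  refine ⟨?_, hlow'⟩
  have hF : H \ G ≤ Gᶜ := by
    intro x y hxy
    rw [SimpleGraph.sdiff_adj] at hxy
    rw [SimpleGraph.compl_adj]
    exact ⟨hxy.1.ne, hxy.2⟩
  have hsup : G ⊔ (H \ G) = H := sup_sdiff_cancel_right hGH
  have hcount := ncard_edges_sup G (H \ G) hF
  have hmem : (H \ G).edgeSet.ncard ∈ AugmentingSizes G k :=
    ⟨H \ G, hF, by rw [hsup]; exact hHconn, rfl⟩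
  have h1 := hlow' _ hmem
  have h2 := sum_dg_eq H
  rw [hsup] at hcount
  have h3 : (H \ G).edgeSet.ncard = (T + 1) / 2 := by
    omega
  rw [← h3]
  exact hmem

lemma nodeConnected_mono {H H' : SimpleGraph V} {k : ℕ} (h : H ≤ H') (hH : NodeConnected H k) :
    NodeConnected H' k := by
  refine ⟨hH.1, fun X hX => ?_⟩
  refine (hH.2 X hX).mono ?_
  intro x y hxy
  exact h hxy

lemma nodeConnected_top (k : ℕ) (hn : k + 1 ≤ Fintype.card V) :
    NodeConnected (⊤ : SimpleGraph V) k := by
  refine nodeConnected_of_sepFree _ k hn ?_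
  intro C D' X _ hCD _ _ hC hD' _ hno
  obtain ⟨c, hc⟩ := hC
  obtain ⟨e, he⟩ := hD'
  refine hno c hc e he ?_
  rw [SimpleGraph.top_adj]
  rintro rfl
  exact hCD c hc he

/-- the sum over all vertices, split -/
lemma sum_split (B : Set V) (a b : V → ℕ) :
    ∑ v, (if v ∈ B then a v else b v)
      = ∑ v ∈ (Set.toFinite B).toFinset, a v + ∑ v ∈ (Set.toFinite Bᶜ).toFinset, b v := by
  rw [Finset.sum_ite]
  congr 1
  · refine Finset.sum_congr ?_ (fun _ _ => rfl)
    ext v
    rw [Finset.mem_filter, Set.Finite.mem_toFinset]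
    simp
  · refine Finset.sum_congr ?_ (fun _ _ => rfl)
    ext v
    rw [Finset.mem_filter, Set.Finite.mem_toFinset, Set.mem_compl_iff]
    simp

/-- the degrees at `B` -/
lemma dg_fill (G N : SimpleGraph V) (B : Set V) (hN1 : N ≤ (fillOutside G B)ᶜ) (v : V)
    (hv : v ∈ B) : dg (fillOutside G B ⊔ N) v = dg G v + dg N v := by
  unfold dg
  rw [← Finset.card_union_of_disjoint]
  · congr 1
    ext w
    rw [Finset.mem_union, mem_nb, mem_nb, mem_nb, SimpleGraph.sup_adj]
    constructor
    · rintro (h | h)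
      · rcases h with h | h
        · exact Or.inl h
        · exact absurd hv h.2.1
      · exact Or.inr h
    · rintro (h | h)
      · exact Or.inl (Or.inl h)
      · exact Or.inr h
  · rw [Finset.disjoint_left]
    intro w hw hw'
    rw [mem_nb] at hw hw'
    have h3 := hN1 hw'
    rw [SimpleGraph.compl_adj] at h3
    exact h3.2 (Or.inl hw)

/-- a supergraph from a solution at the vertices of very large degree -/
lemma supergraph16 (D k : ℕ) (G : SimpleGraph V) (hG : Orientable G D)
    (hk : 100000000000000000000000000 * (D + 1) ^ 6 ≤ k) (hn : k + 1 ≤ Fintype.card V) (t : ℕ)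
    (ht : Fintype.card V = k + 1 + t) (h1000 : 1000 * (D + 1) * t ≤ Fintype.card V)
    (B : Set V) (hB : ∀ v, v ∈ B ↔ Fintype.card V < 16 * dg G v)
    (N : SimpleGraph V) (hN1 : N ≤ (fillOutside G B)ᶜ)
    (hN2 : NodeConnected (fillOutside G B ⊔ N) k) :
    ∃ H : SimpleGraph V, G ≤ H ∧ SepFree H k ∧
      ∑ v, dg H v ≤ ∑ v, dg G v + ∑ v, (if v ∈ B then dg N v else k - dg G v) + 1 := by
  obtain ⟨out, hD, hout⟩ := hG
  have hD3 : (D + 1) ^ 3 ≤ (D + 1) ^ 6 := Nat.pow_le_pow_right (Nat.le_add_left 1 D) (by norm_num)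
  have hD6 : D + 1 ≤ (D + 1) ^ 6 := Nat.le_self_pow (by norm_num) _
  have h1000' : 1000 * t ≤ Fintype.card V := by
    refine le_trans ?_ h1000
    have h4 : 1000 * 1 * t ≤ 1000 * (D + 1) * t :=
      Nat.mul_le_mul_right _ (Nat.mul_le_mul_left _ (Nat.le_add_left 1 D))
    omega
  have hKc : ((fillOutside G B ⊔ N)ᶜ)ᶜ = fillOutside G B ⊔ N := compl_compl _
  have hdeg : ∀ v, v ∈ B →
      dg (fillOutside G B ⊔ N)ᶜ v + (dg G v + dg N v) + 1 = Fintype.card V := by
    intro v hv
    have h1 := dg_compl (fillOutside G B ⊔ N) v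
    have h2 := dg_fill G N B hN1 v hv
    omega
  have hsmall : ∀ v, v ∉ B → dg G v ≤ k := by
    intro v hv
    rw [hB] at hv
    omega
  have hsuff : ∀ H : SimpleGraph V,
      ∑ v, dg H v + ∑ v, (if Fintype.card V < 16 * dg G v then
        dg (fillOutside G B ⊔ N)ᶜ v else 0) ≤
        ∑ v, (if Fintype.card V < 16 * dg G v then Fintype.card V - 1 else k) + 1 →
      ∑ v, dg H v ≤ ∑ v, dg G v + ∑ v, (if v ∈ B then dg N v else k - dg G v) + 1 := by
    intro H hH
    have h1 : ∑ v, (if Fintype.card V < 16 * dg G v then Fintype.card V - 1 else k)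
        = ∑ v, (if Fintype.card V < 16 * dg G v then dg (fillOutside G B ⊔ N)ᶜ v else 0)
          + ∑ v, dg G v + ∑ v, (if v ∈ B then dg N v else k - dg G v) := by
      rw [← Finset.sum_add_distrib, ← Finset.sum_add_distrib]
      refine Finset.sum_congr rfl (fun v _ => ?_)
      by_cases h2 : v ∈ B
      · have h3 := hdeg v h2
        rw [if_pos h2, if_pos ((hB v).mp h2), if_pos ((hB v).mp h2)]
        omega
      · have h3 := hsmall v h2
        rw [if_neg h2, if_neg (fun h => h2 ((hB v).mpr h)), if_neg (fun h => h2 ((hB v).mpr h))]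
        omega
    omega
  by_cases h0 : t = 0
  · refine ⟨⊤, le_top, sepFree_of_nodeConnected _ k (nodeConnected_top k hn), ?_⟩
    refine hsuff ⊤ ?_
    have h1 : ∀ v, dg (⊤ : SimpleGraph V) v = k := by
      intro v
      rw [dg_eq_card ⊤ v (univ.erase v) (by intro y; simp [eq_comm]),
        Finset.card_erase_of_mem (Finset.mem_univ _), Finset.card_univ]
      omega
    have h2 : ∀ v, dg (fillOutside G B ⊔ N)ᶜ v = 0 := by
      intro v
      have h3 := le_dg_of_nodeConnected _ k hN2 v
      have h4 := dg_compl (fillOutside G B ⊔ N) v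
      omega
    rw [← Finset.sum_add_distrib]
    refine le_trans (Finset.sum_le_sum (g := fun v =>
      (if Fintype.card V < 16 * dg G v then Fintype.card V - 1 else k)) (fun v _ => ?_))
      (Nat.le_succ _)
    rw [h1 v, h2 v]
    split_ifs <;> omega
  · obtain ⟨H, hH1, hH2, hH3⟩ := regimeBK D V G out k t hD hout ht (by omega) h1000 (by omega)
      (fillOutside G B ⊔ N)ᶜ (by
        intro x y hxy
        rw [SimpleGraph.compl_adj, SimpleGraph.sup_adj, not_or] at hxy
        by_contra hcon
        rw [not_or] at hcon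
        refine hxy.2.1 (Or.inr ⟨hxy.1, ?_, ?_⟩)
        · rw [hB]
          exact hcon.1
        · rw [hB]
          exact hcon.2) (by
        intro x y hxy hG'
        rw [SimpleGraph.compl_adj, SimpleGraph.sup_adj, not_or] at hxy
        exact hxy.2.1 (Or.inl hG')) (by
        rw [hKc]
        exact sepFree_of_nodeConnected _ k hN2)
    exact ⟨H, hH1, hH2, hsuff H hH3⟩

lemma mem_big (G : SimpleGraph V) (D k : ℕ) (v : V) :
    v ∈ Big G D k ↔ k < 100000000 * (D + 1) * dg G v := by
  unfold Big
  rw [Set.mem_ofPred_eq, dg_eq_ncard]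
  norm_num

lemma not_big (G : SimpleGraph V) (D k : ℕ) (v : V) (hv : v ∉ Big G D k) : 2 * dg G v ≤ k := by
  rw [mem_big, not_lt] at hv
  refine le_trans ?_ hv
  have h1 : 2 * 1 ≤ 100000000 * (D + 1) := by omega
  exact Nat.mul_le_mul_right _ h1

/-- a supergraph from a solution at the vertices of large degree -/
lemma supergraph_kernel (D k : ℕ) (G : SimpleGraph V) (hG : Orientable G D)
    (hk : 100000000000000000000000000 * (D + 1) ^ 6 ≤ k) (hn : k + 1 ≤ Fintype.card V)
    (N : SimpleGraph V) (hN1 : N ≤ (fillOutside G (Big G D k))ᶜ)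
    (hN2 : NodeConnected (fillOutside G (Big G D k) ⊔ N) k) :
    ∃ H : SimpleGraph V, G ≤ H ∧ SepFree H k ∧
      ∑ v, dg H v ≤ ∑ v, dg G v + ∑ v, (if v ∈ Big G D k then dg N v else k - dg G v) + 1 := by
  obtain ⟨t, ht⟩ : ∃ t, Fintype.card V = k + 1 + t := ⟨Fintype.card V - (k + 1), by omega⟩
  have hD1 : 1 ≤ D + 1 := Nat.le_add_left 1 D
  have hD6 : D + 1 ≤ (D + 1) ^ 6 := Nat.le_self_pow (by norm_num) _
  have hdeg : ∀ v, v ∈ Big G D k →
      dg (fillOutside G (Big G D k) ⊔ N) v = dg G v + dg N v := dg_fill G N _ hN1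
  have hGle : G ≤ fillOutside G (Big G D k) ⊔ N := by
    intro x y hxy
    exact Or.inl (Or.inl hxy)
  by_cases h1 : Fintype.card V < 1000 * ((D + 1) * t)
  · obtain ⟨out, hD, hout⟩ := hG
    obtain ⟨H, hH1, hH2, F, hF, _, _, hsum⟩ := regimeG (D + 1) hD1 V G out k t
      (fun v => le_trans (hD v) (Nat.le_succ D)) hout ht h1 hk
    refine ⟨H, hH1, hH2, ?_⟩
    have h2 := fam_kernel G _ k (fun v => v ∈ Big G D k) (sepFree_of_nodeConnected _ k hN2) hGle
      (not_big G D k) (by omega) F hF
    have h3 : ∑ v, (if v ∈ Big G D k then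
        dg (fillOutside G (Big G D k) ⊔ N) v - dg G v else k - dg G v)
        = ∑ v, (if v ∈ Big G D k then dg N v else k - dg G v) := by
      refine Finset.sum_congr rfl (fun v _ => ?_)
      split_ifs with h4
      · have := hdeg v h4
        omega
      · rfl
    rw [h3] at h2
    omega
  · have h1000 : 1000 * (D + 1) * t ≤ Fintype.card V := by
      rw [Nat.mul_assoc]
      omega
    obtain ⟨B, hBdef⟩ : ∃ B : Set V, B = {v | Fintype.card V < 16 * dg G v} := ⟨_, rfl⟩
    have hB : ∀ v, v ∈ B ↔ Fintype.card V < 16 * dg G v := by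
      intro v
      rw [hBdef]
      rfl
    have hBB : ∀ v, v ∈ B → v ∈ Big G D k := by
      intro v hv
      rw [hB] at hv
      rw [mem_big]
      have h2 : 16 * dg G v ≤ 100000000 * (D + 1) * dg G v :=
        Nat.mul_le_mul_right _ (by omega)
      omega
    obtain ⟨H, hH1, hH2, hsum⟩ := supergraph16 D k G hG hk hn t ht h1000 B hB
      ((fillOutside G (Big G D k) ⊔ N) \ fillOutside G B) (by
        intro x y hxy
        rw [SimpleGraph.sdiff_adj] at hxy
        rw [SimpleGraph.compl_adj]
        exact ⟨hxy.1.ne, hxy.2⟩) (by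
        refine nodeConnected_mono ?_ hN2
        intro x y hxy
        rw [SimpleGraph.sup_adj (fillOutside G B), SimpleGraph.sdiff_adj]
        by_cases h : (fillOutside G B).Adj x y
        · exact Or.inl h
        · exact Or.inr ⟨hxy, h⟩)
    refine ⟨H, hH1, hH2, le_trans hsum ?_⟩
    have h2 : ∑ v, (if v ∈ B then dg ((fillOutside G (Big G D k) ⊔ N) \ fillOutside G B) v
          else k - dg G v)
        ≤ ∑ v, (if v ∈ Big G D k then dg N v else k - dg G v) := by
      refine Finset.sum_le_sum (fun v _ => ?_)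
      by_cases h3 : v ∈ B
      · rw [if_pos h3, if_pos (hBB v h3)]
        unfold dg
        refine Finset.card_le_card ?_
        intro w hw
        rw [mem_nb, SimpleGraph.sdiff_adj, SimpleGraph.sup_adj] at hw
        rw [mem_nb]
        rcases hw.1 with h4 | h4
        · rcases h4 with h5 | h5
          · exact absurd (Or.inl h5) hw.2
          · exact absurd (hBB v h3) h5.2.1
        · exact h4
      · rw [if_neg h3]
        split_ifs with h4
        · have h5 := hdeg v h4
          have h6 := le_dg_of_nodeConnected _ k hN2 v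
          omega
        · exact le_rfl
    omega

/-- the lower bound at the vertices of large degree -/
lemma kernel_lower (G H : SimpleGraph V) (B : Set V) (k μ : ℕ)
    (hμ : ∀ m ∈ KernelValues G B k, μ ≤ m) (hGH : G ≤ H) (hH : NodeConnected H k) :
    (μ + ∑ v ∈ (Set.toFinite Bᶜ).toFinset, (k - (G.neighborSet v).ncard))
      + ∑ v, dg G v ≤ ∑ v, dg H v := by
  have h1 : μ ≤ ∑ v ∈ (Set.toFinite B).toFinset,
      ((H \ fillOutside G B).neighborSet v).ncard := by
    refine hμ _ ⟨H \ fillOutside G B, ?_, ?_, rfl⟩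
    · intro x y hxy
      rw [SimpleGraph.sdiff_adj] at hxy
      rw [SimpleGraph.compl_adj]
      exact ⟨hxy.1.ne, hxy.2⟩
    · refine nodeConnected_mono ?_ hH
      intro x y hxy
      rw [SimpleGraph.sup_adj, SimpleGraph.sdiff_adj]
      by_cases h : (fillOutside G B).Adj x y
      · exact Or.inl h
      · exact Or.inr ⟨hxy, h⟩
  have h2 : ∑ v ∈ (Set.toFinite B).toFinset, ((H \ fillOutside G B).neighborSet v).ncard
        + ∑ v ∈ (Set.toFinite Bᶜ).toFinset, (k - (G.neighborSet v).ncard)
      = ∑ v, (if v ∈ B then dg (H \ fillOutside G B) v else k - dg G v) := by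
    rw [sum_split]
    congr 1
    · exact Finset.sum_congr rfl (fun v _ => (dg_eq_ncard _ v).symm)
    · exact Finset.sum_congr rfl (fun v _ => by rw [dg_eq_ncard])
  have h3 : ∑ v, (if v ∈ B then dg (H \ fillOutside G B) v else k - dg G v)
      + ∑ v, dg G v ≤ ∑ v, dg H v := by
    rw [← Finset.sum_add_distrib]
    refine Finset.sum_le_sum (fun v _ => ?_)
    have h4 : dg G v ≤ dg H v := by
      unfold dg
      refine Finset.card_le_card ?_
      intro y hy
      rw [mem_nb] at hy ⊢
      exact hGH hy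
    split_ifs with h5
    · unfold dg
      rw [← Finset.card_union_of_disjoint]
      · refine Finset.card_le_card ?_
        intro w hw
        rw [Finset.mem_union, mem_nb, mem_nb, SimpleGraph.sdiff_adj] at hw
        rw [mem_nb]
        rcases hw with hw | hw
        · exact hw.1
        · exact hGH hw
      · rw [Finset.disjoint_left]
        intro w hw hw'
        rw [mem_nb, SimpleGraph.sdiff_adj] at hw
        rw [mem_nb] at hw'
        exact hw.2 (Or.inl hw')
    · have h6 := le_dg_of_nodeConnected H k hH v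
      omega
  omega

/-- few vertices have large degree -/
lemma card_Big (D k : ℕ) (G : SimpleGraph V) (hG : Orientable G D) :
    k * (Big G D k).ncard ≤ 2 * 10 ^ 8 * (D * (D + 1)) * Fintype.card V := by
  obtain ⟨out, hD, hout⟩ := hG
  have h1 := sum_dg_outD G out D hD hout
  rw [Set.ncard_eq_toFinset_card (Big G D k)]
  have h2 : (Set.toFinite (Big G D k)).toFinset.card * k
      ≤ ∑ v ∈ (Set.toFinite (Big G D k)).toFinset, 100000000 * (D + 1) * dg G v := by
    rw [← smul_eq_mul, ← Finset.sum_const]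
    refine Finset.sum_le_sum (fun v hv => ?_)
    rw [Set.Finite.mem_toFinset, mem_big] at hv
    exact hv.le
  have h3 : ∑ v ∈ (Set.toFinite (Big G D k)).toFinset, 100000000 * (D + 1) * dg G v
      ≤ 100000000 * (D + 1) * ∑ v, dg G v := by
    rw [Finset.mul_sum]
    exact Finset.sum_le_sum_of_subset (Finset.subset_univ _)
  have h4 : 100000000 * (D + 1) * ∑ v, dg G v
      ≤ 100000000 * (D + 1) * (2 * D * Fintype.card V) := Nat.mul_le_mul_left _ h1
  rw [Nat.mul_comm k]
  refine le_trans (le_trans h2 (le_trans h3 h4)) (le_of_eq ?_)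
  ring

lemma part1 (D k : ℕ) (G : SimpleGraph V) (hG : Orientable G D)
    (hk : 10 ^ 26 * (D + 1) ^ 6 ≤ k) (hn : k + 1 ≤ Fintype.card V)
    (hcase : k + 10 ^ 6 * (D + 1) ^ 3 ≤ Fintype.card V ∨
      {v | 7 * Fintype.card V < 10 * (G.neighborSet v).ncard}.ncard ≤ 2) :
    ∃ T : ℕ, IsGreatest {t | ∃ F, IsFamily k F ∧ demand G k F = t} T ∧
      (∃ F : Finset (Finset V), IsFamily k F ∧ demand G k F = T ∧
        ∀ X ∈ F, X.card ≤ 10 ^ 9 * (D + 1) ^ 3) ∧
      IsLeast (AugmentingSizes G k) ((T + 1) / 2) := by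
  have hcase' : k + 1000000 * (D + 1) ^ 3 ≤ Fintype.card V ∨
      (Finset.univ.filter (fun v => 7 * Fintype.card V < 10 * Pool.Agent.BD48.dg G v)).card
        ≤ 2 := by
    rcases hcase with h | h
    · left
      norm_num at h
      exact h
    · right
      refine le_trans (le_of_eq ?_) h
      rw [← Set.ncard_coe_finset]
      congr 1
      ext v
      rw [Finset.mem_coe, Finset.mem_filter, Set.mem_ofPred_eq, dg_eq_ncard]
      simp
  obtain ⟨H, hH1, hH2, F, hF, hFc, hmax, hsum⟩ := exists_supergraph D k G hG (by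
    norm_num at hk
    exact hk) hn (by
    rcases hcase' with h | h
    · exact Or.inl h
    · right
      convert h)
  refine ⟨Pool.Agent.BD48.val G k F, ⟨⟨F, hF, demand_eq G k F⟩, ?_⟩,
    ⟨F, hF, demand_eq G k F, ?_⟩, ?_⟩
  · rintro t ⟨F', hF', rfl⟩
    rw [demand_eq]
    exact hmax F' hF'
  · intro X hX
    have h := hFc X hX
    norm_num
    exact h
  · refine isLeast_of_supergraph G H k _ hn hH1 hH2 hsum ?_
    intro H' hGH' hH'
    exact Pool.Agent.BD48.fam_lower G H' hGH' k (sepFree_of_nodeConnected _ k hH') F hF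

lemma part2 (D k : ℕ) (G : SimpleGraph V) (hG : Orientable G D)
    (hk : 10 ^ 26 * (D + 1) ^ 6 ≤ k) (hn : k + 1 ≤ Fintype.card V) :
    ∃ μ S T : ℕ, IsLeast (KernelValues G (Big G D k) k) μ ∧
      S = μ + ∑ v ∈ (Set.toFinite (Big G D k)ᶜ).toFinset, (k - (G.neighborSet v).ncard) ∧
      IsLeast (AugmentingSizes G k) ((S + 1) / 2) ∧
      IsGreatest {t | ∃ F, IsFamily k F ∧ demand G k F = t} T ∧ T ≤ S := by
  have hk' : 100000000000000000000000000 * (D + 1) ^ 6 ≤ k := by
    norm_num at hk
    exact hk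
  have hD6 : D + 1 ≤ (D + 1) ^ 6 := Nat.le_self_pow (by norm_num) _
  have hne : ∃ m, m ∈ KernelValues G (Big G D k) k := by
    refine ⟨_, (fillOutside G (Big G D k))ᶜ, le_rfl, ?_, rfl⟩
    rw [sup_compl_eq_top]
    exact nodeConnected_top k hn
  obtain ⟨μ, hμ, hμmin⟩ : ∃ μ, μ ∈ KernelValues G (Big G D k) k ∧
      ∀ m ∈ KernelValues G (Big G D k) k, μ ≤ m := by
    refine ⟨sInf (KernelValues G (Big G D k) k), Nat.sInf_mem hne, ?_⟩
    intro m hm
    exact Nat.sInf_le hm
  obtain ⟨F, hF, hmax⟩ := exists_max_fam G k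
  refine ⟨μ, _, Pool.Agent.BD48.val G k F, ⟨hμ, fun m hm => hμmin m hm⟩, rfl, ?_,
    ⟨⟨F, hF, demand_eq G k F⟩, ?_⟩, ?_⟩
  · obtain ⟨N, hN1, hN2, hN3⟩ := hμ
    obtain ⟨H, hH1, hH2, hH3⟩ := supergraph_kernel D k G hG hk' hn N hN1 hN2
    have h1 : ∑ v, (if v ∈ Big G D k then dg N v else k - dg G v)
        = μ + ∑ v ∈ (Set.toFinite (Big G D k)ᶜ).toFinset, (k - (G.neighborSet v).ncard) := by
      rw [sum_split, ← hN3]
      congr 1
      · exact Finset.sum_congr rfl (fun v _ => dg_eq_ncard N v)
      · exact Finset.sum_congr rfl (fun v _ => by rw [dg_eq_ncard])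
    rw [h1] at hH3
    refine isLeast_of_supergraph G H k _ hn hH1 hH2 hH3 ?_
    intro H' hGH' hH'
    exact kernel_lower G H' _ k μ hμmin hGH' hH'
  · rintro t ⟨F', hF', rfl⟩
    rw [demand_eq]
    exact hmax F' hF'
  · obtain ⟨N, hN1, hN2, hN3⟩ := hμ
    have h2 := fam_kernel G _ k (fun v => v ∈ Big G D k) (sepFree_of_nodeConnected _ k hN2)
      (by
        intro x y hxy
        exact Or.inl (Or.inl hxy))
      (not_big G D k) (by omega) F hF
    have h3 : ∑ v, (if v ∈ Big G D k then
        dg (fillOutside G (Big G D k) ⊔ N) v - dg G v else k - dg G v)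
        = μ + ∑ v ∈ (Set.toFinite (Big G D k)ᶜ).toFinset, (k - (G.neighborSet v).ncard) := by
      rw [sum_split, ← hN3]
      congr 1
      · refine Finset.sum_congr rfl (fun v hv => ?_)
        rw [Set.Finite.mem_toFinset] at hv
        have h4 := dg_fill G N _ hN1 v hv
        rw [← dg_eq_ncard]
        omega
      · exact Finset.sum_congr rfl (fun v _ => by rw [dg_eq_ncard])
    rw [h3] at h2
    exact h2

lemma part3 (D s k : ℕ) (G : SimpleGraph V) (hG : Orientable G D) (hK : FewCommon G s)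
    (hk : 10 ^ 26 * ((D + 1) ^ 6 + (D + 1) ^ 3 * s) ≤ k) (hn : k + 1 ≤ Fintype.card V) :
    IsLeast (AugmentingSizes G k)
      ((∑ v, (k - (G.neighborSet v).ncard) + twinEdges G k + 1) / 2) := by
  have hk' : 100000000000000000000000000 * (D + 1) ^ 6
      + 100000000000000000000000000 * ((D + 1) ^ 3 * s) ≤ k := by
    refine le_trans (le_of_eq ?_) hk
    ring
  obtain ⟨out, hD, hout⟩ := hG
  have hD1 : 1 ≤ D + 1 := Nat.le_add_left 1 D
  have hD6 : D + 1 ≤ (D + 1) ^ 6 := Nat.le_self_pow (by norm_num) _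
  have hD3s : s ≤ (D + 1) ^ 3 * s := Nat.le_mul_of_pos_left _ (Nat.pow_pos (by omega))
  have hk3 : s + 2 ≤ k := by omega
  have hK3 : ∀ x y z, x ≠ y → x ≠ z → y ≠ z → (Pool.Agent.BD48.nb G x ∩
      Pool.Agent.BD48.nb G y ∩ Pool.Agent.BD48.nb G z).card < s := by
    intro x y z h1 h2 h3
    rw [← inter_ncard]
    exact hK x y z h1 h2 h3
  obtain ⟨t, ht⟩ : ∃ t, Fintype.card V = k + 1 + t := ⟨Fintype.card V - (k + 1), by omega⟩
  have hH : ∃ H : SimpleGraph V, G ≤ H ∧ Pool.Agent.BD48.SepFree H k ∧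
      ∑ v, Pool.Agent.BD48.dg H v ≤ ∑ v, max k (Pool.Agent.BD48.dg G v) + twinEdges G k + 1 := by
    by_cases h0 : t = 0
    · refine ⟨⊤, le_top, ?_, ?_⟩
      · intro C D' X _ hCD _ _ hC hD' _ hno
        obtain ⟨c, hc⟩ := hC
        obtain ⟨e, he⟩ := hD'
        refine hno c hc e he ?_
        rw [SimpleGraph.top_adj]
        rintro rfl
        exact hCD c hc he
      · have h1 : ∀ v : V, Pool.Agent.BD48.dg (⊤ : SimpleGraph V) v
            ≤ max k (Pool.Agent.BD48.dg G v) := by
          intro v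
          refine le_trans ?_ (le_max_left _ _)
          rw [Pool.Agent.BD48.dg_eq_card ⊤ v (univ.erase v)
            (by intro y; simp [eq_comm]),
            Finset.card_erase_of_mem (Finset.mem_univ _), Finset.card_univ]
          omega
        have h2 := Finset.sum_le_sum (s := univ) (fun v _ => h1 v)
        omega
    · rw [twinEdges_eq G k (by omega)]
      by_cases h1 : Fintype.card V < 1000 * ((D + 1) * t)
      · exact Pool.Agent.BD48.regimeAX (D + 1) s hD1 V G out k t
          (fun v => le_trans (hD v) (Nat.le_succ D)) hout hK3 ht h1 hk'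
      · have h1000 : 1000 * (D + 1) * t ≤ Fintype.card V := by
          rw [Nat.mul_assoc]
          omega
        refine Pool.Agent.BD48.regimeBG D V G out k t hD hout ?_ ht (by omega) h1000 (by omega)
        by_contra hcon
        push Not at hcon
        obtain ⟨x, hx, y, hy, z, hz, hxy, hxz, hyz⟩ := Finset.two_lt_card.mp hcon
        rw [Finset.mem_filter] at hx hy hz
        have e3 := hK3 x y z hxy hxz hyz
        have e4 := Pool.Agent.BD48.card_inter3 (Pool.Agent.BD48.nb G x)
          (Pool.Agent.BD48.nb G y) (Pool.Agent.BD48.nb G z)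
        have e5 : (Pool.Agent.BD48.nb G x).card = Pool.Agent.BD48.dg G x := rfl
        have e6 : (Pool.Agent.BD48.nb G y).card = Pool.Agent.BD48.dg G y := rfl
        have e7 : (Pool.Agent.BD48.nb G z).card = Pool.Agent.BD48.dg G z := rfl
        have e8 := hx.2
        have e9 := hy.2
        have e10 := hz.2
        omega
  obtain ⟨H, hGH, hsep, hsum⟩ := hH
  have hdef : ∑ v, (k - (G.neighborSet v).ncard) + ∑ v, Pool.Agent.BD48.dg G v
      = ∑ v, max k (Pool.Agent.BD48.dg G v) := by
    rw [← Finset.sum_add_distrib]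
    refine Finset.sum_congr rfl (fun v _ => ?_)
    rw [← dg_eq_ncard]
    omega
  refine isLeast_of_supergraph G H k _ hn hGH hsep (by omega) ?_
  intro H' hGH' hH'
  have h3 : ∑ v, max k (Pool.Agent.BD48.dg G v) + twinEdges G k
      ≤ ∑ v, Pool.Agent.BD48.dg H' v := by
    by_cases h0 : t = 0
    · rw [twinEdges_zero G k (by omega), Nat.add_zero]
      refine Finset.sum_le_sum (fun v _ => max_le (le_dg_of_nodeConnected _ k hH' v) ?_)
      unfold Pool.Agent.BD48.dg
      refine Finset.card_le_card ?_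
      intro y hy
      rw [Pool.Agent.BD48.mem_nb] at hy ⊢
      exact hGH' hy
    · rw [twinEdges_eq G k (by omega)]
      exact Pool.Agent.BD48.lower_tau G H' k s hGH' hK3 hk3 (by omega)
        (fun v => le_dg_of_nodeConnected _ k hH' v) (sepFree_of_nodeConnected _ k hH')
  omega

end proofs

/-- **Augmentation of sparse graphs.** Let `G` be a graph on `n > k` vertices with an orientation of
outdegree at most `D`, and let `k ≥ 10 ^ 26 (D + 1) ^ 6`. Let `B` be the set of the vertices of degree
greater than `k / (10 ^ 8 (D + 1))`; it has at most `2 * 10 ^ 8 D (D + 1) n / k` elements. Let `μ` be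
the least value of the problem at `B`, in which all edges outside `B` are present, and let `S` be the sum
of `μ` and of all `k - d(v)` for `v` outside `B`. Then the least number of edges of an augmenting set is
half of `S`, rounded up. Moreover the greatest demand `T` of a family of disjoint sets is at most `S`; if
`n ≥ k + 10 ^ 6 (D + 1) ^ 3`, or if at most two vertices have degree greater than `7 n / 10`, then the
optimum is half of `T`, rounded up. If no three vertices have `s` common neighbours, then it is half of the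
sum of all `max (0, k - d(v))` and of the number of twin edges, rounded up. Forests are examples with
`D = 1`, `s = 2`, without twin edges. -/
theorem result :
    (∀ (D k : ℕ) (V : Type) [Fintype V] (G : SimpleGraph V), Orientable G D →
      10 ^ 26 * (D + 1) ^ 6 ≤ k → k + 1 ≤ Fintype.card V →
      k * (Big G D k).ncard ≤ 2 * 10 ^ 8 * (D * (D + 1)) * Fintype.card V ∧
      ∃ μ S T : ℕ, IsLeast (KernelValues G (Big G D k) k) μ ∧
        S = μ + ∑ v ∈ (Set.toFinite (Big G D k)ᶜ).toFinset, (k - (G.neighborSet v).ncard) ∧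
        IsLeast (AugmentingSizes G k) ((S + 1) / 2) ∧
        IsGreatest {t | ∃ F, IsFamily k F ∧ demand G k F = t} T ∧ T ≤ S ∧
        ((k + 10 ^ 6 * (D + 1) ^ 3 ≤ Fintype.card V ∨
          {v | 7 * Fintype.card V < 10 * (G.neighborSet v).ncard}.ncard ≤ 2) →
          (T + 1) / 2 = (S + 1) / 2 ∧ ∃ F : Finset (Finset V), IsFamily k F ∧
            demand G k F = T ∧ ∀ X ∈ F, X.card ≤ 10 ^ 9 * (D + 1) ^ 3) ∧
        (∀ s : ℕ, FewCommon G s → 10 ^ 26 * ((D + 1) ^ 6 + (D + 1) ^ 3 * s) ≤ k →
          (∑ v, (k - (G.neighborSet v).ncard) + twinEdges G k + 1) / 2 = (S + 1) / 2)) ∧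
    (∀ (V : Type) [Fintype V] (G : SimpleGraph V), G.IsAcyclic →
      Orientable G 1 ∧ FewCommon G 2 ∧ ∀ k, 3 ≤ k → twinEdges G k = 0) := by
  classical
  refine ⟨?_, ?_⟩
  · intro D k V _ G hG hk0 hn
    refine ⟨card_Big D k G hG, ?_⟩
    obtain ⟨μ, S, T, h1, h2, h3, h4, h5⟩ := part2 D k G hG hk0 hn
    refine ⟨μ, S, T, h1, h2, h3, h4, h5, ?_, ?_⟩
    · intro hcase
      obtain ⟨T', g1, g2, g3⟩ := part1 D k G hG hk0 hn hcase
      have g4 : T = T' := IsGreatest.unique h4 g1
      subst g4
      exact ⟨IsLeast.unique g3 h3, g2⟩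
    · intro s hK hk
      exact IsLeast.unique (part3 D s k G hG hK hk hn) h3
  · intro V _ G hG
    obtain ⟨h1, h2, h3⟩ := Pool.Agent.BD48.acyclic_sparse G hG
    refine ⟨h1, ?_, ?_⟩
    · intro x y z hxy hxz hyz
      rw [inter_ncard]
      exact h2 x y z hxy hxz hyz
    · intro k hk
      by_cases hn : k + 2 ≤ Fintype.card V
      · rw [twinEdges_eq G k hn]
        exact h3 k hk
      · by_cases hn' : Fintype.card V = k + 1
        · exact twinEdges_zero G k hn'
        · unfold twinEdges
          have h : {e : Sym2 V | ∃ x y, e = s(x, y) ∧ G.Adj x y ∧ (G.neighborSet x).ncard = k ∧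
              (G.neighborSet y).ncard = k ∧ (∀ w, w ≠ x → w ≠ y → (G.Adj x w ↔ G.Adj y w)) ∧
              ∃ w, w ≠ x ∧ ¬ G.Adj x w} = ∅ := by
            rw [Set.eq_empty_iff_forall_notMem]
            rintro e ⟨x, y, _, _, h4, _⟩
            rw [← dg_eq_ncard] at h4
            have h5 : Pool.Agent.BD48.nb G x ⊆ univ.erase x := by
              intro v hv
              rw [Pool.Agent.BD48.mem_nb] at hv
              exact Finset.mem_erase.mpr ⟨hv.ne', Finset.mem_univ _⟩
            have h6 := Finset.card_le_card h5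
            have h7 : (Pool.Agent.BD48.nb G x).card = k := h4
            rw [Finset.card_erase_of_mem (Finset.mem_univ _), Finset.card_univ] at h6
            have h8 : 0 < Fintype.card V := Fintype.card_pos_iff.mpr ⟨x⟩
            omega
          rw [h, Set.ncard_empty]

end Pool.Agent.Results.MP_cccaab_lc.Sparse
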